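import Pool.Agent.MX.Defs

/-!
# MX-Basic: elementary facts on `unif`, `mx` and `BddF`

All statements are for a finite-dimensional normed space `E` whose volume is an additive Haar
measure (use `haveI := FiniteDimensional.proper ℝ E` to get a proper, hence second countable
space).

* `lintegral_unif`: by definition of `unif` (`lintegral_smul_measure`).
* `lintegral_unif_smul`: `∫⁻ y, f (x + t • y) ∂(unif B)` is the average of `f (x + ·)` over `t • B`:
  change of variables `y ↦ t • y`; `Measure.map (t • ·) volume = ofReal |(t ^ n)⁻¹| • volume`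
  is `Measure.map_addHaar_smul`, `volume (t • B) = ofReal |t ^ n| * volume B` is
  `Measure.addHaar_smul`, the map `y ↦ t • y` is a measurable equivalence
  (`MeasurableEquiv.smul₀`), so no measurability of `f` or `B` is needed
  (`MeasurableEmbedding.lintegral_map`, `MeasurableEmbedding.restrict_map`).
* `BddF.of_le`: `∫⁻ g ∂μ ≤ D * ∫⁻ g ∂ν`, so `mx μ S f x ≤ D * mx ν S f x`; then
  `ENNReal.mul_rpow_of_nonneg`, `lintegral_const_mul'` (or `lintegral_const_mul` with the
  measurability of `mx ν S f`, or work with `D = ∞` separately; `D` is an `ℝ≥0` here).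
* `bddF_unif_smul`: `∫⁻ y, f (x + t • y) ∂(unif (r • B)) = ∫⁻ y, f (x + (t * r) • y) ∂(unif B)` by
  `lintegral_unif_smul`, so `mx (unif (r • B)) S f = mx (unif B) (S.image (· * r)) f`.
-/

set_option autoImplicit false

open MeasureTheory Set
open scoped Pointwise ENNReal NNReal

namespace Pool.Agent.MX

variable {E : Type} [NormedAddCommGroup E] [NormedSpace ℝ E] [FiniteDimensional ℝ E]
  [MeasureSpace E] [BorelSpace E] [Measure.IsAddHaarMeasure (volume : Measure E)]

omit [FiniteDimensional ℝ E] [BorelSpace E] [Measure.IsAddHaarMeasure (volume : Measure E)] in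
theorem lintegral_unif (B : Set E) (f : E → ℝ≥0∞) :
    ∫⁻ y, f y ∂(unif B) = (volume B)⁻¹ * ∫⁻ y in B, f y := by
  unfold unif
  rw [lintegral_smul_measure, smul_eq_mul]

theorem lintegral_unif_smul (B : Set E) {t : ℝ} (ht : 0 < t) (x : E) (f : E → ℝ≥0∞) :
    ∫⁻ y, f (x + t • y) ∂(unif B) = (∫⁻ y in t • B, f (x + y)) / volume (t • B) := by
  have ht0 : t ≠ 0 := ht.ne'
  rw [lintegral_unif]
  let e : E ≃ᵐ E := MeasurableEquiv.smul₀ t ht0
  have he : ∀ y, e y = t • y := fun _ => rfl
  have heB : t • B = e '' B := rfl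
  have h1 : Measure.map e ((volume : Measure E).restrict B) =
      ENNReal.ofReal |(t ^ Module.finrank ℝ E)⁻¹| • (volume : Measure E).restrict (t • B) := by
    have h2 : (Measure.map e (volume : Measure E)).restrict (t • B) =
        Measure.map e ((volume : Measure E).restrict (e ⁻¹' (t • B))) :=
      e.measurableEmbedding.restrict_map _ _
    have h3 : e ⁻¹' (t • B) = B := by
      rw [heB, Set.preimage_image_eq _ e.injective]
    rw [h3] at h2
    rw [← h2]
    have h4 : Measure.map e (volume : Measure E) =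
        ENNReal.ofReal |(t ^ Module.finrank ℝ E)⁻¹| • (volume : Measure E) :=
      Measure.map_addHaar_smul volume ht0
    rw [h4, Measure.restrict_smul]
  have h5 : ∫⁻ y in B, f (x + t • y) =
      ENNReal.ofReal |(t ^ Module.finrank ℝ E)⁻¹| * ∫⁻ y in t • B, f (x + y) := by
    have h6 := lintegral_map_equiv (μ := (volume : Measure E).restrict B) (fun z => f (x + z)) e
    rw [h1, lintegral_smul_measure, smul_eq_mul] at h6
    exact h6.symm
  have hpow : 0 < t ^ Module.finrank ℝ E := pow_pos ht _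
  rw [h5, Measure.addHaar_smul, abs_inv, abs_of_pos hpow, ENNReal.ofReal_inv_of_pos hpow,
    div_eq_mul_inv, ENNReal.mul_inv (Or.inl (by simpa using hpow)) (Or.inl ENNReal.ofReal_ne_top)]
  ring

theorem measurable_mx (μ : Measure E) [SFinite μ] (S : Finset ℝ) {f : E → ℝ≥0∞}
    (hf : Measurable f) : Measurable (mx μ S f) := by
  have hprop : ProperSpace E := FiniteDimensional.proper ℝ E
  unfold mx
  refine Measurable.biSup (S : Set ℝ) S.countable_toSet fun t _ => ?_
  have h1 : Measurable fun q : E × E => f (q.1 + t • q.2) :=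
    hf.comp (measurable_fst.add (measurable_snd.const_smul t))
  exact h1.lintegral_prod_right'

omit [FiniteDimensional ℝ E] [BorelSpace E] [Measure.IsAddHaarMeasure (volume : Measure E)] in
theorem mx_mono (μ : Measure E) {S T : Finset ℝ} (h : S ⊆ T) {f g : E → ℝ≥0∞} (hfg : f ≤ g)
    (x : E) : mx μ S f x ≤ mx μ T g x := by
  unfold mx
  refine iSup₂_le fun t ht => ?_
  exact le_iSup₂_of_le t (h ht) (lintegral_mono fun y => hfg _)

omit [FiniteDimensional ℝ E] [BorelSpace E] [Measure.IsAddHaarMeasure (volume : Measure E)] in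
theorem BddF.of_le {p : ℝ} (hp : 0 ≤ p) {C : ℝ≥0∞} {D : ℝ≥0} {μ ν : Measure E}
    (hle : μ ≤ (D : ℝ≥0∞) • ν) (h : BddF p C ν) : BddF p (D * C) μ := by
  intro S hS f hf
  have h1 : ∀ x, mx μ S f x ≤ (D : ℝ≥0∞) * mx ν S f x := by
    intro x
    unfold mx
    refine iSup₂_le fun t ht => ?_
    calc ∫⁻ y, f (x + t • y) ∂μ ≤ ∫⁻ y, f (x + t • y) ∂((D : ℝ≥0∞) • ν) :=
          lintegral_mono' hle le_rfl
      _ = (D : ℝ≥0∞) * ∫⁻ y, f (x + t • y) ∂ν := by
          rw [lintegral_smul_measure, smul_eq_mul]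
      _ ≤ _ := by
          gcongr
          exact le_iSup₂_of_le t ht le_rfl
  calc ∫⁻ x, mx μ S f x ^ p ≤ ∫⁻ x, (D : ℝ≥0∞) ^ p * mx ν S f x ^ p := by
        refine lintegral_mono fun x => ?_
        rw [← ENNReal.mul_rpow_of_nonneg _ _ hp]
        exact ENNReal.rpow_le_rpow (h1 x) hp
    _ = (D : ℝ≥0∞) ^ p * ∫⁻ x, mx ν S f x ^ p :=
        lintegral_const_mul' _ _ (ENNReal.rpow_ne_top_of_nonneg hp ENNReal.coe_ne_top)
    _ ≤ (D : ℝ≥0∞) ^ p * (C ^ p * ∫⁻ x, f x ^ p) := by
        gcongr
        exact h S hS f hf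
    _ = (D * C) ^ p * ∫⁻ x, f x ^ p := by
        rw [ENNReal.mul_rpow_of_nonneg _ _ hp, mul_assoc]

theorem bddF_unif_smul {p : ℝ} {C : ℝ≥0∞} {B : Set E} {r : ℝ} (hr : 0 < r)
    (h : BddF p C (unif B)) : BddF p C (unif (r • B)) := by
  classical
  intro S hS f hf
  have h1 : ∀ x, mx (unif (r • B)) S f x ≤ mx (unif B) (S.image (· * r)) f x := by
    intro x
    unfold mx
    refine iSup₂_le fun t ht => ?_
    refine le_iSup₂_of_le (t * r) (Finset.mem_image_of_mem _ ht) ?_
    rw [lintegral_unif_smul (r • B) (hS t ht) x f,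
      lintegral_unif_smul B (mul_pos (hS t ht) hr) x f, mul_smul]
  have h2 := h (S.image (· * r)) (by
    intro t ht
    obtain ⟨s, hs, rfl⟩ := Finset.mem_image.1 ht
    exact mul_pos (hS s hs) hr) f hf
  refine le_trans (lintegral_mono fun x => ?_) h2
  by_cases hp : 0 ≤ p
  · exact ENNReal.rpow_le_rpow (h1 x) hp
  · have h3 : mx (unif B) (S.image (· * r)) f x ≤ mx (unif (r • B)) S f x := by
      unfold mx
      refine iSup₂_le fun t ht => ?_
      obtain ⟨s, hs, rfl⟩ := Finset.mem_image.1 ht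
      refine le_iSup₂_of_le s hs ?_
      rw [lintegral_unif_smul (r • B) (hS s hs) x f,
        lintegral_unif_smul B (mul_pos (hS s hs) hr) x f, mul_smul]
    rw [le_antisymm (h1 x) h3]

end Pool.Agent.MX
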