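import Pool.Agent.MX.Basic

/-!
# MX-Conv2: from finite sets of dilations to the maximal operator of a star-shaped body

`bdd_of_bddF`. Let `f : E → ℝ` be measurable, `F x := ‖f x‖ₑ`, and for `t > 0`
`avg t x := (∫⁻ y in t • B, F (x + y)) / volume (t • B) = ∫⁻ y, F (x + t • y) ∂(unif B)`
(`lintegral_unif_smul`).

* For `0 < t < q`: `t • B ⊆ q • B` (star-shapedness `hstar`: `t • y = q • ((t / q) • y)`) and
  `volume (q • B) = (q / t) ^ n * volume (t • B)`, `n = finrank ℝ E` (`Measure.addHaar_smul`). So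
  `avg t x ≤ (q / t) ^ n * avg q x`.
* Hence `avg t x ≤ ⨆ q : positive rationals, avg q x`: let `q → t` from above through the rationals
  (`(q / t) ^ n → 1`; for example `ENNReal.le_of_forall_...`, or: if `a ≤ ofReal (r ^ n) * s` for a
  dense set of `r > 1`, then `a ≤ s` by continuity; `s = ∞` is trivial).
* Therefore `maxF B f x = ⨆ q : ℚ with 0 < q, avg q x = ⨆ m : ℕ, mx (unif B) (S m) F x`, where `S m`
  is the increasing sequence of finite sets of the first `m` positive rationals of an enumeration.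
* Monotone convergence (`lintegral_iSup`, measurability from `measurable_mx`, `unif B` is a finite
  measure when `volume B ≠ 0`; if `volume B = 0` then `unif B` may still be treated directly: it is
  `∞ • 0 = 0`), so `∫⁻ maxF ^ p = ⨆ m, ∫⁻ (mx (unif B) (S m) F) ^ p ≤ C ^ p * ∫⁻ F ^ p`.
-/

set_option autoImplicit false

open MeasureTheory Set
open scoped Pointwise ENNReal NNReal

namespace Pool.Agent.MX

variable {E : Type} [NormedAddCommGroup E] [NormedSpace ℝ E] [FiniteDimensional ℝ E]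
  [MeasureSpace E] [BorelSpace E] [Measure.IsAddHaarMeasure (volume : Measure E)]

private theorem conv2_avg_le {B : Set E}
    (hstar : ∀ y ∈ B, ∀ s : ℝ, 0 ≤ s → s ≤ 1 → s • y ∈ B) {t q : ℝ} (ht : 0 < t) (htq : t < q)
    (F : E → ℝ≥0∞) :
    (∫⁻ y in t • B, F y) / volume (t • B) ≤
      ENNReal.ofReal ((q / t) ^ Module.finrank ℝ E) *
        ((∫⁻ y in q • B, F y) / volume (q • B)) := by
  have hq : 0 < q := ht.trans htq
  have hsub : t • B ⊆ q • B := by
    rintro _ ⟨y, hy, rfl⟩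
    refine ⟨(t / q) • y, hstar y hy _ (by positivity) ?_, ?_⟩
    · rw [div_le_one hq]; exact htq.le
    · simp only [smul_smul]
      rw [mul_div_cancel₀ t hq.ne']
  have hv : volume (q • B) = ENNReal.ofReal ((q / t) ^ Module.finrank ℝ E) * volume (t • B) := by
    rw [Measure.addHaar_smul, Measure.addHaar_smul, ← mul_assoc, ← ENNReal.ofReal_mul (by positivity)]
    congr 2
    rw [abs_of_pos (by positivity), abs_of_pos (by positivity), div_pow]
    field_simp
  have hR0 : ENNReal.ofReal ((q / t) ^ Module.finrank ℝ E) ≠ 0 := by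
    rw [Ne, ENNReal.ofReal_eq_zero, not_le]; positivity
  have hR1 : ENNReal.ofReal ((q / t) ^ Module.finrank ℝ E) ≠ ∞ := ENNReal.ofReal_ne_top
  calc (∫⁻ y in t • B, F y) / volume (t • B)
      ≤ (∫⁻ y in q • B, F y) / volume (t • B) := by
        gcongr
    _ = ENNReal.ofReal ((q / t) ^ Module.finrank ℝ E) *
        ((∫⁻ y in q • B, F y) / volume (q • B)) := by
        rw [hv, ← mul_div_assoc, ENNReal.mul_div_mul_left _ _ hR0 hR1]

private theorem conv2_le_iSup {B : Set E}
    (hstar : ∀ y ∈ B, ∀ s : ℝ, 0 ≤ s → s ≤ 1 → s • y ∈ B) {t : ℝ} (ht : 0 < t)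
    (F : E → ℝ≥0∞) :
    (∫⁻ y in t • B, F y) / volume (t • B) ≤
      ⨆ q : {q : ℚ // 0 < q}, ((∫⁻ y in ((q : ℚ) : ℝ) • B, F y) /
        volume (((q : ℚ) : ℝ) • B)) := by
  set s := ⨆ q : {q : ℚ // 0 < q}, ((∫⁻ y in ((q : ℚ) : ℝ) • B, F y) /
        volume (((q : ℚ) : ℝ) • B)) with hs
  have hex : ∀ k : ℕ, ∃ q : ℚ, t < q ∧ (q : ℝ) < t + 1 / ((k : ℝ) + 1) := by
    intro k
    exact exists_rat_btwn (by have : (0 : ℝ) < 1 / ((k : ℝ) + 1) := by positivity
                              linarith)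
  choose Q hQ1 hQ2 using hex
  have hlim : Filter.Tendsto (fun k => (Q k : ℝ)) Filter.atTop (nhds t) := by
    have h1 : Filter.Tendsto (fun k : ℕ => t + 1 / ((k : ℝ) + 1)) Filter.atTop (nhds (t + 0)) :=
      tendsto_const_nhds.add tendsto_one_div_add_atTop_nhds_zero_nat
    rw [add_zero] at h1
    exact tendsto_of_tendsto_of_tendsto_of_le_of_le tendsto_const_nhds h1
      (fun k => (hQ1 k).le) (fun k => (hQ2 k).le)
  have hlim2 : Filter.Tendsto
      (fun k => ENNReal.ofReal (((Q k : ℝ) / t) ^ Module.finrank ℝ E) * s) Filter.atTop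
      (nhds s) := by
    have h2 : Filter.Tendsto (fun k => ENNReal.ofReal (((Q k : ℝ) / t) ^ Module.finrank ℝ E))
        Filter.atTop (nhds (ENNReal.ofReal ((t / t) ^ Module.finrank ℝ E))) :=
      ENNReal.tendsto_ofReal ((hlim.div_const t).pow _)
    rw [div_self ht.ne', one_pow, ENNReal.ofReal_one] at h2
    have h3 := ENNReal.Tendsto.mul_const (b := s) h2 (Or.inl one_ne_zero)
    rwa [one_mul] at h3
  refine ge_of_tendsto' hlim2 (fun k => ?_)
  refine (conv2_avg_le hstar ht (hQ1 k) F).trans ?_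
  gcongr
  have hpos : 0 < Q k := by
    have := ht.trans (hQ1 k)
    exact_mod_cast this
  exact le_iSup (fun q : {q : ℚ // 0 < q} => ((∫⁻ y in ((q : ℚ) : ℝ) • B, F y) /
        volume (((q : ℚ) : ℝ) • B))) ⟨Q k, hpos⟩

theorem bdd_of_bddF {p : ℝ} (hp : 0 < p) {C : ℝ≥0∞} {B : Set E} (hB0 : volume B ≠ 0)
    (hB1 : volume B ≠ ∞)
    (hstar : ∀ y ∈ B, ∀ s : ℝ, 0 ≤ s → s ≤ 1 → s • y ∈ B)
    (h : BddF p C (unif B)) : Bdd p C B := by
  intro f hf
  have : Nonempty {q : ℚ // 0 < q} := ⟨⟨1, one_pos⟩⟩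
  obtain ⟨e, he⟩ := exists_surjective_nat {q : ℚ // 0 < q}
  set F : E → ℝ≥0∞ := fun x => ‖f x‖ₑ with hF
  have hFm : Measurable F := hf.enorm
  set S : ℕ → Finset ℝ := fun m => (Finset.range m).image (fun i => (((e i : ℚ)) : ℝ)) with hS
  have hSpos : ∀ m, ∀ t ∈ S m, 0 < t := by
    intro m t htm
    simp only [hS, Finset.mem_image, Finset.mem_range] at htm
    obtain ⟨i, -, rfl⟩ := htm
    exact_mod_cast (e i).2
  have hSmono : ∀ a b : ℕ, a ≤ b → S a ⊆ S b := by
    intro a b hab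
    simp only [hS]
    exact Finset.image_subset_image (Finset.range_subset_range.2 hab)
  have : IsFiniteMeasure (unif B) := by
    refine ⟨?_⟩
    simp only [unif, Measure.smul_apply, Measure.restrict_apply MeasurableSet.univ, univ_inter,
      smul_eq_mul]
    exact ENNReal.mul_lt_top (ENNReal.inv_lt_top.2 (pos_iff_ne_zero.2 hB0)) hB1.lt_top
  have hmx : ∀ x, maxF B f x ≤ ⨆ m, mx (unif B) (S m) F x := by
    intro x
    refine iSup₂_le (fun t ht => ?_)
    refine (conv2_le_iSup hstar ht (fun y => ‖f (x + y)‖ₑ)).trans ?_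
    refine iSup_le (fun q => ?_)
    obtain ⟨i, rfl⟩ := he q
    have hpos : (0 : ℝ) < (((e i : ℚ)) : ℝ) := by exact_mod_cast (e i).2
    rw [← lintegral_unif_smul B hpos x F]
    refine le_trans ?_ (le_iSup _ (i + 1))
    have hmem : (((e i : ℚ)) : ℝ) ∈ S (i + 1) := by
      simp only [hS, Finset.mem_image, Finset.mem_range]
      exact ⟨i, Nat.lt_succ_self i, rfl⟩
    exact le_iSup₂ (f := fun (t : ℝ) (_ : t ∈ S (i + 1)) => ∫⁻ y, F (x + t • y) ∂(unif B))
      (((e i : ℚ)) : ℝ) hmem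
  calc ∫⁻ x, maxF B f x ^ p ≤ ∫⁻ x, (⨆ m, mx (unif B) (S m) F x) ^ p := by
        refine lintegral_mono (fun x => ?_)
        exact ENNReal.rpow_le_rpow (hmx x) hp.le
    _ = ∫⁻ x, ⨆ m, (mx (unif B) (S m) F x) ^ p := by
        refine lintegral_congr (fun x => ?_)
        have := (ENNReal.orderIsoRpow p hp).map_iSup (fun m => mx (unif B) (S m) F x)
        exact this
    _ = ⨆ m, ∫⁻ x, (mx (unif B) (S m) F x) ^ p := by
        refine lintegral_iSup (fun m => (measurable_mx (unif B) (S m) hFm).pow_const p) ?_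
        intro a b hab x
        exact ENNReal.rpow_le_rpow (mx_mono (unif B) (hSmono a b hab) le_rfl x) hp.le
    _ ≤ C ^ p * ∫⁻ x, ‖f x‖ₑ ^ p := by
        refine iSup_le (fun m => ?_)
        exact h (S m) (hSpos m) F hFm

end Pool.Agent.MX
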