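import Pool.Agent.MX.Basic

/-!
# MX-Push: transference, the maximal function of a linear image of a measure

`bddF_map`. Let `F' : F → ℝ≥0∞` be measurable, `S` a finite set of `t > 0`, `G := mx (μ.map T) S F'`
(measurable by `measurable_mx`), so `G x = ⨆ t ∈ S, ∫⁻ y, F' (x + t • T y) ∂μ`. Let `R ≥ 0` with
`‖y‖ ≤ R` for `μ`-almost all `y` (replace `R` by `max R 0`), `ρ := R * (sum or sup of S)`. For `r > 0`:

* For `x : F` and `‖z‖ ≤ r`: with `f x z := indicator {z | ‖z‖ ≤ r + ρ} (fun z => F' (x + T z)) z`,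
  `G (x + T z) = mx μ S (f x) z` (for `μ`-almost all `y`, `‖z + t • y‖ ≤ r + ρ`).
* So `∫⁻ z in closedBall 0 r, G (x + T z) ^ p ≤ C ^ p * ∫⁻ z in closedBall 0 (r + ρ), F' (x + T z) ^ p`.
* Integrate over `x : F` and exchange the integrals (`lintegral_lintegral_swap`), translation
  invariance (`lintegral_add_right_eq_self`):
  `volume (closedBall 0 r) * ∫⁻ G ^ p ≤ C ^ p * volume (closedBall 0 (r + ρ)) * ∫⁻ F' ^ p`.
* `volume (closedBall 0 r) = ofReal (r ^ N) * c` with `0 < c < ∞` (`Measure.addHaar_closedBall`), so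
  `∫⁻ G ^ p ≤ ofReal (((r + ρ) / r) ^ N) * (C ^ p * ∫⁻ F' ^ p)` for all `r > 0`; let `r → ∞`
  (`ge_of_tendsto`, `ENNReal.Tendsto.mul_const`; or the case distinction whether the right side is
  `∞`).

Use `haveI := FiniteDimensional.proper ℝ E` and the same for `F` (second countability).
-/

set_option autoImplicit false

open MeasureTheory Set
open scoped Pointwise ENNReal NNReal

namespace Pool.Agent.MX

variable {E : Type} [NormedAddCommGroup E] [NormedSpace ℝ E] [FiniteDimensional ℝ E]
  [MeasureSpace E] [BorelSpace E] [Measure.IsAddHaarMeasure (volume : Measure E)]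
  {F : Type} [NormedAddCommGroup F] [NormedSpace ℝ F] [FiniteDimensional ℝ F]
  [MeasureSpace F] [BorelSpace F] [Measure.IsAddHaarMeasure (volume : Measure F)]

theorem bddF_map (T : E →ₗ[ℝ] F) {p : ℝ} (hp : 0 < p) {C : ℝ≥0∞} {μ : Measure E}
    [IsFiniteMeasure μ] {R : ℝ} (hR : μ {y | R < ‖y‖} = 0) (h : BddF p C μ) :
    BddF p C (μ.map T) := by
  haveI := FiniteDimensional.proper ℝ E
  haveI := FiniteDimensional.proper ℝ F
  intro S hS f hf
  have hTc : Continuous T := T.continuous_of_finiteDimensional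
  have hTm : Measurable T := hTc.measurable
  have hGm : Measurable (mx (μ.map T) S f) := measurable_mx _ S hf
  have hGx : ∀ x, mx (μ.map T) S f x = ⨆ t ∈ S, ∫⁻ y, f (x + t • T y) ∂μ := by
    intro x
    unfold mx
    refine iSup_congr fun t => iSup_congr fun _ => ?_
    have hm : Measurable fun y : F => f (x + t • y) :=
      hf.comp (measurable_const.add (measurable_id.const_smul t))
    exact lintegral_map hm hTm
  generalize hG : mx (μ.map T) S f = G at hGm hGx ⊢
  -- the radius
  have hR' : ∀ᵐ y ∂μ, ‖y‖ ≤ max R 0 := by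
    rw [ae_iff]
    refine measure_mono_null (fun y hy => ?_) hR
    rw [mem_setOf_eq, not_le] at hy
    exact lt_of_le_of_lt (le_max_left R 0) hy
  have hR0 : 0 ≤ max R 0 := le_max_right _ _
  generalize max R 0 = R' at hR' hR0
  obtain ⟨s, hs0, hs⟩ : ∃ s : ℝ, 0 ≤ s ∧ ∀ t ∈ S, t ≤ s := by
    refine ⟨∑ t ∈ S, t, Finset.sum_nonneg fun t ht => (hS t ht).le, fun t ht => ?_⟩
    exact Finset.single_le_sum (f := fun t => t) (fun t ht => (hS t ht).le) ht
  have hρ : 0 ≤ s * R' := mul_nonneg hs0 hR0
  generalize hρ' : s * R' = ρ at hρ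
  -- the main inequality
  have hmain : ∀ r : ℝ, 0 < r → volume (Metric.closedBall (0 : E) r) * ∫⁻ x, G x ^ p ≤
      C ^ p * (volume (Metric.closedBall (0 : E) (r + ρ)) * ∫⁻ x, f x ^ p) := by
    intro r hr
    have hpt : ∀ x : F, ∫⁻ z in Metric.closedBall (0 : E) r, G (x + T z) ^ p ≤
        C ^ p * ∫⁻ z in Metric.closedBall (0 : E) (r + ρ), f (x + T z) ^ p := by
      intro x
      have hmeas : Measurable fun z : E => f (x + T z) :=
        hf.comp (measurable_const.add hTm)
      have h1 := h S hS ((Metric.closedBall (0 : E) (r + ρ)).indicator fun z => f (x + T z))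
        (hmeas.indicator Metric.isClosed_closedBall.measurableSet)
      have h2 : ∫⁻ z, ((Metric.closedBall (0 : E) (r + ρ)).indicator
          (fun z => f (x + T z)) z) ^ p =
          ∫⁻ z in Metric.closedBall (0 : E) (r + ρ), f (x + T z) ^ p := by
        rw [← lintegral_indicator Metric.isClosed_closedBall.measurableSet]
        refine lintegral_congr fun z => ?_
        by_cases hz : z ∈ Metric.closedBall (0 : E) (r + ρ)
        · rw [indicator_of_mem hz, indicator_of_mem hz]
        · rw [indicator_of_notMem hz, indicator_of_notMem hz, ENNReal.zero_rpow_of_pos hp]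
      rw [h2] at h1
      refine le_trans ?_ h1
      rw [← lintegral_indicator Metric.isClosed_closedBall.measurableSet]
      refine lintegral_mono fun z => ?_
      by_cases hz : z ∈ Metric.closedBall (0 : E) r
      · rw [indicator_of_mem hz]
        refine ENNReal.rpow_le_rpow ?_ hp.le
        rw [hGx]
        unfold mx
        refine iSup_mono fun t => iSup_mono fun ht => ?_
        refine lintegral_mono_ae ?_
        filter_upwards [hR'] with y hy
        have hmem : z + t • y ∈ Metric.closedBall (0 : E) (r + ρ) := by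
          rw [mem_closedBall_zero_iff] at hz ⊢
          have ht0 := hS t ht
          calc ‖z + t • y‖ ≤ ‖z‖ + ‖t • y‖ := norm_add_le _ _
            _ = ‖z‖ + t * ‖y‖ := by rw [norm_smul, Real.norm_of_nonneg ht0.le]
            _ ≤ r + ρ := by
              have h3 : t * ‖y‖ ≤ s * R' :=
                mul_le_mul (hs t ht) hy (norm_nonneg y) hs0
              linarith
        rw [indicator_of_mem hmem, map_add, map_smul, add_assoc]
      · rw [indicator_of_notMem hz]
        exact bot_le
    -- integrate over `x`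
    have hsw : ∀ (g : F → ℝ≥0∞), Measurable g → ∀ r' : ℝ,
        ∫⁻ x, ∫⁻ z in Metric.closedBall (0 : E) r', g (x + T z) ^ p =
          volume (Metric.closedBall (0 : E) r') * ∫⁻ x, g x ^ p := by
      intro g hg r'
      rw [lintegral_lintegral_swap]
      · have h3 : ∀ z : E, ∫⁻ x, g (x + T z) ^ p = ∫⁻ x, g x ^ p := fun z =>
          lintegral_add_right_eq_self (fun x => g x ^ p) (T z)
        simp only [h3]
        rw [setLIntegral_const, mul_comm]
      · have h4 : Measurable fun q : F × E => g (q.1 + T q.2) :=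
          hg.comp (measurable_fst.add (hTm.comp measurable_snd))
        exact (h4.pow_const p).aemeasurable
    calc volume (Metric.closedBall (0 : E) r) * ∫⁻ x, G x ^ p
        = ∫⁻ x, ∫⁻ z in Metric.closedBall (0 : E) r, G (x + T z) ^ p := (hsw G hGm r).symm
      _ ≤ ∫⁻ x, C ^ p * ∫⁻ z in Metric.closedBall (0 : E) (r + ρ), f (x + T z) ^ p :=
          lintegral_mono hpt
      _ = C ^ p * ∫⁻ x, ∫⁻ z in Metric.closedBall (0 : E) (r + ρ), f (x + T z) ^ p := by
          refine lintegral_const_mul _ ?_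
          have h4 : Measurable fun q : F × E => f (q.1 + T q.2) :=
            hf.comp (measurable_fst.add (hTm.comp measurable_snd))
          exact Measurable.lintegral_prod_right' (h4.pow_const p)
      _ = C ^ p * (volume (Metric.closedBall (0 : E) (r + ρ)) * ∫⁻ x, f x ^ p) := by
          rw [hsw f hf]
  -- divide by the volume
  have hdiv : ∀ r : ℝ, 0 < r → ∫⁻ x, G x ^ p ≤
      ENNReal.ofReal (((r + ρ) / r) ^ Module.finrank ℝ E) * (C ^ p * ∫⁻ x, f x ^ p) := by
    intro r hr
    have h1 := hmain r hr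
    rw [Measure.addHaar_closedBall volume (0 : E) hr.le,
      Measure.addHaar_closedBall volume (0 : E) (by linarith : 0 ≤ r + ρ)] at h1
    have hc0 : volume (Metric.ball (0 : E) 1) ≠ 0 :=
      (Metric.measure_ball_pos volume _ one_pos).ne'
    have hct : volume (Metric.ball (0 : E) 1) ≠ ∞ := measure_ball_lt_top.ne
    have hrN : 0 < r ^ Module.finrank ℝ E := pow_pos hr _
    have hA0 : ENNReal.ofReal (r ^ Module.finrank ℝ E) * volume (Metric.ball (0 : E) 1) ≠ 0 :=
      mul_ne_zero (by rwa [Ne, ENNReal.ofReal_eq_zero, not_le]) hc0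
    have hAt : ENNReal.ofReal (r ^ Module.finrank ℝ E) * volume (Metric.ball (0 : E) 1) ≠ ∞ :=
      ENNReal.mul_ne_top ENNReal.ofReal_ne_top hct
    rw [← ENNReal.mul_le_mul_iff_right hA0 hAt]
    refine le_trans h1 (le_of_eq ?_)
    have h2 : ENNReal.ofReal ((r + ρ) ^ Module.finrank ℝ E) =
        ENNReal.ofReal (r ^ Module.finrank ℝ E) *
          ENNReal.ofReal (((r + ρ) / r) ^ Module.finrank ℝ E) := by
      rw [← ENNReal.ofReal_mul hrN.le, ← mul_pow, mul_div_cancel₀ _ hr.ne']
    rw [h2]
    ring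
  have hlim : Filter.Tendsto (fun r : ℝ =>
      ENNReal.ofReal (((r + ρ) / r) ^ Module.finrank ℝ E) * (C ^ p * ∫⁻ x, f x ^ p))
      Filter.atTop (nhds (1 * (C ^ p * ∫⁻ x, f x ^ p))) := by
    refine ENNReal.Tendsto.mul_const ?_ (Or.inl one_ne_zero)
    rw [← ENNReal.ofReal_one]
    refine (ENNReal.continuous_ofReal.tendsto 1).comp ?_
    have h1 : Filter.Tendsto (fun r : ℝ => 1 + ρ / r) Filter.atTop (nhds (1 + 0)) :=
      tendsto_const_nhds.add (Filter.Tendsto.div_atTop tendsto_const_nhds Filter.tendsto_id)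
    have h2 := h1.pow (Module.finrank ℝ E)
    rw [add_zero, one_pow] at h2
    refine h2.congr' ?_
    filter_upwards [Filter.eventually_gt_atTop (0 : ℝ)] with r hr
    rw [add_div, div_self hr.ne']
  rw [one_mul] at hlim
  refine ge_of_tendsto hlim ?_
  filter_upwards [Filter.eventually_gt_atTop (0 : ℝ)] with r hr
  exact hdiv r hr

end Pool.Agent.MX
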