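import Pool.Agent.MX.Basic

/-!
# MX-Cover: a body covered by countably many good bodies of comparable total volume

`lintegral_rpow_le_pow_mul`: Jensen (or Hoelder, `ENNReal.lintegral_mul_le_Lp_mul_Lq`).
`bddF_cover`: put `w i := volume (A i) / volume B`, so `∑' i, w i ≤ D`. For measurable `f ≥ 0`,
`∫⁻ y, f (x + t • y) ∂(unif B) = (volume B)⁻¹ * ∫⁻ y in B, f (x + t • y)
≤ (volume B)⁻¹ * ∑' i, ∫⁻ y in A i, f (x + t • y) = ∑' i, w i * ∫⁻ y, f (x + t • y) ∂(unif (A i))`
(`B ⊆ (⋃ A i) ∪ null set`, `lintegral_iUnion_le`; for `volume (A i) = 0` both sides vanish;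
`volume (A i) ≠ ∞` because of `hsum`). So `mx (unif B) S f x ≤ ∑' i, w i * mx (unif (A i)) S f x`.
By the first lemma for the measure `Measure.sum (fun i => w i • Measure.dirac i)` on the countable
type `ι` (with `⊤` as measurable space; `lintegral_sum_measure`, `lintegral_dirac`):
`(∑' w i * a i) ^ p ≤ D ^ (p - 1) * ∑' w i * a i ^ p`. Integrate (`lintegral_tsum`):
`∫⁻ mx (unif B) S f ^ p ≤ D ^ (p - 1) * ∑' w i * (C ^ p * ∫⁻ f ^ p) ≤ D ^ p * C ^ p * ∫⁻ f ^ p`.
(When `volume (A i) = 0` the measure `unif (A i)` is zero and everything is trivial for that `i`.)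
-/

set_option autoImplicit false

open MeasureTheory Set
open scoped Pointwise ENNReal NNReal

namespace Pool.Agent.MX

theorem lintegral_rpow_le {α : Type} [MeasurableSpace α] (ν : Measure α) {p : ℝ} (hp : 1 ≤ p)
    {g : α → ℝ≥0∞} (hg : AEMeasurable g ν) :
    (∫⁻ x, g x ∂ν) ^ p ≤ ν Set.univ ^ (p - 1) * ∫⁻ x, g x ^ p ∂ν := by
  rcases hp.eq_or_lt with h1 | h1
  · subst h1
    simp
  have hp0 : 0 < p := zero_lt_one.trans h1
  have hpq : p.HolderConjugate (p / (p - 1)) := Real.HolderConjugate.conjExponent h1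
  have h2 := ENNReal.lintegral_mul_le_Lp_mul_Lq ν hpq hg (aemeasurable_const (b := (1 : ℝ≥0∞)))
  have h3 : ∫⁻ x, g x ∂ν ≤ (∫⁻ x, g x ^ p ∂ν) ^ (1 / p) * ν Set.univ ^ ((p - 1) / p) := by
    simpa using h2
  calc (∫⁻ x, g x ∂ν) ^ p
      ≤ ((∫⁻ x, g x ^ p ∂ν) ^ (1 / p) * ν Set.univ ^ ((p - 1) / p)) ^ p :=
        ENNReal.rpow_le_rpow h3 hp0.le
    _ = (∫⁻ x, g x ^ p ∂ν) * ν Set.univ ^ (p - 1) := by
        rw [ENNReal.mul_rpow_of_nonneg _ _ hp0.le, ← ENNReal.rpow_mul, ← ENNReal.rpow_mul,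
          one_div, inv_mul_cancel₀ hp0.ne', ENNReal.rpow_one, div_mul_cancel₀ _ hp0.ne']
    _ = ν Set.univ ^ (p - 1) * ∫⁻ x, g x ^ p ∂ν := mul_comm _ _

theorem tsum_rpow_le {ι : Type} [Countable ι] {p : ℝ} (hp : 1 ≤ p) (w a : ι → ℝ≥0∞) :
    (∑' i, w i * a i) ^ p ≤ (∑' i, w i) ^ (p - 1) * ∑' i, w i * a i ^ p := by
  let _ : MeasurableSpace ι := ⊤
  have hl : ∀ b : ι → ℝ≥0∞,
      ∫⁻ i, b i ∂(Measure.sum (fun i => w i • Measure.dirac i)) = ∑' i, w i * b i := by
    intro b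
    rw [lintegral_sum_measure]
    refine tsum_congr fun i => ?_
    rw [lintegral_smul_measure, lintegral_dirac, smul_eq_mul]
  have hu : (Measure.sum (fun i => w i • Measure.dirac i)) (Set.univ : Set ι) = ∑' i, w i := by
    rw [← lintegral_one, hl]
    simp
  have h := lintegral_rpow_le (Measure.sum (fun i => w i • Measure.dirac i)) hp
    (g := a) (Measurable.of_discrete.aemeasurable)
  rwa [hl, hl, hu] at h

variable {E : Type} [NormedAddCommGroup E] [NormedSpace ℝ E] [FiniteDimensional ℝ E]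
  [MeasureSpace E] [BorelSpace E] [Measure.IsAddHaarMeasure (volume : Measure E)]

theorem bddF_cover {p : ℝ} (hp : 1 ≤ p) {C : ℝ≥0∞} {D : ℝ≥0} {B : Set E} (hB0 : volume B ≠ 0)
    (hB1 : volume B ≠ ∞) {ι : Type} [Countable ι] (A : ι → Set E)
    (hA : ∀ i, MeasurableSet (A i)) (hcov : volume (B \ ⋃ i, A i) = 0)
    (hsum : ∑' i, volume (A i) ≤ D * volume B) (h : ∀ i, BddF p C (unif (A i))) :
    BddF p (D * C) (unif B) := by
  intro S hS f hf
  have hp0 : 0 ≤ p := zero_le_one.trans hp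
  obtain ⟨w, hw⟩ : ∃ w : ι → ℝ≥0∞, ∀ i, w i = volume (A i) / volume B := ⟨_, fun _ => rfl⟩
  have hwsum : ∑' i, w i ≤ D := by
    have h1 : ∑' i, w i = (∑' i, volume (A i)) * (volume B)⁻¹ := by
      rw [← ENNReal.tsum_mul_right]
      exact tsum_congr fun i => by rw [hw, div_eq_mul_inv]
    rw [h1]
    calc (∑' i, volume (A i)) * (volume B)⁻¹ ≤ D * volume B * (volume B)⁻¹ := by gcongr
      _ = D := by rw [mul_assoc, ENNReal.mul_inv_cancel hB0 hB1, mul_one]
  have hAfin : ∀ i, volume (A i) ≠ ∞ := by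
    intro i hi
    have h1 : volume (A i) ≤ D * volume B := (ENNReal.le_tsum i).trans hsum
    rw [hi] at h1
    exact (ENNReal.mul_ne_top ENNReal.coe_ne_top hB1) (top_le_iff.1 h1)
  -- the average over `B`
  have havg : ∀ g : E → ℝ≥0∞, ∫⁻ y, g y ∂(unif B) ≤ ∑' i, w i * ∫⁻ y, g y ∂(unif (A i)) := by
    intro g
    rw [lintegral_unif]
    have h1 : ∫⁻ y in B, g y ≤ ∑' i, ∫⁻ y in A i, g y := by
      have h2 : ∫⁻ y in B, g y ≤ ∫⁻ y in ⋃ i, A i, g y := by
        apply lintegral_mono' _ le_rfl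
        refine Measure.restrict_mono_ae ?_
        rw [Filter.EventuallyLE, ae_iff]
        refine measure_mono_null ?_ hcov
        intro x hx
        rw [Set.mem_setOf_eq] at hx
        by_contra hx'
        apply hx
        intro hxB
        by_contra hxA
        exact hx' ⟨hxB, hxA⟩
      exact h2.trans (lintegral_iUnion_le _ _)
    calc (volume B)⁻¹ * ∫⁻ y in B, g y ≤ (volume B)⁻¹ * ∑' i, ∫⁻ y in A i, g y := by gcongr
      _ = ∑' i, (volume B)⁻¹ * ∫⁻ y in A i, g y := ENNReal.tsum_mul_left.symm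
      _ = ∑' i, w i * ∫⁻ y, g y ∂(unif (A i)) := by
          refine tsum_congr fun i => ?_
          rw [lintegral_unif, hw]
          by_cases h0 : volume (A i) = 0
          · have h3 : ∫⁻ y in A i, g y = 0 := setLIntegral_measure_zero _ _ h0
            rw [h3, mul_zero, mul_zero, mul_zero]
          · rw [div_eq_mul_inv, mul_assoc, mul_comm ((volume B)⁻¹) (_ * _), ← mul_assoc,
              ← mul_assoc, ENNReal.mul_inv_cancel h0 (hAfin i), one_mul, mul_comm]
  have hmx : ∀ x, mx (unif B) S f x ≤ ∑' i, w i * mx (unif (A i)) S f x := by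
    intro x
    unfold mx
    refine iSup₂_le fun t ht => ?_
    refine (havg _).trans (ENNReal.tsum_le_tsum fun i => ?_)
    gcongr
    exact le_iSup₂ (f := fun t (_ : t ∈ S) => ∫⁻ y, f (x + t • y) ∂(unif (A i))) t ht
  have hsf : ∀ i, SFinite (unif (A i)) := by
    intro i
    unfold unif
    infer_instance
  have hmeas : ∀ i, Measurable (mx (unif (A i)) S f) := fun i => measurable_mx _ S hf
  calc ∫⁻ x, mx (unif B) S f x ^ p
      ≤ ∫⁻ x, (D : ℝ≥0∞) ^ (p - 1) * ∑' i, w i * mx (unif (A i)) S f x ^ p := by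
        refine lintegral_mono fun x => ?_
        refine (ENNReal.rpow_le_rpow (hmx x) hp0).trans ((tsum_rpow_le hp w _).trans ?_)
        gcongr
    _ = (D : ℝ≥0∞) ^ (p - 1) * ∫⁻ x, ∑' i, w i * mx (unif (A i)) S f x ^ p := by
        refine lintegral_const_mul _ ?_
        exact Measurable.ennreal_tsum fun i => ((hmeas i).pow_const p).const_mul _
    _ = (D : ℝ≥0∞) ^ (p - 1) * ∑' i, w i * ∫⁻ x, mx (unif (A i)) S f x ^ p := by
        rw [lintegral_tsum fun i => (((hmeas i).pow_const p).const_mul _).aemeasurable]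
        congr 1
        exact tsum_congr fun i => lintegral_const_mul _ ((hmeas i).pow_const p)
    _ ≤ (D : ℝ≥0∞) ^ (p - 1) * ∑' i, w i * (C ^ p * ∫⁻ x, f x ^ p) := by
        gcongr with i
        exact h i S hS f hf
    _ = (D : ℝ≥0∞) ^ (p - 1) * ((∑' i, w i) * (C ^ p * ∫⁻ x, f x ^ p)) := by
        rw [ENNReal.tsum_mul_right]
    _ ≤ (D : ℝ≥0∞) ^ (p - 1) * (D * (C ^ p * ∫⁻ x, f x ^ p)) := by gcongr
    _ = (D * C) ^ p * ∫⁻ x, f x ^ p := by
        rw [ENNReal.mul_rpow_of_nonneg _ _ hp0, ← mul_assoc, ← mul_assoc]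
        congr 2
        have h1 : (D : ℝ≥0∞) ^ (p - 1) * D = (D : ℝ≥0∞) ^ p := by
          by_cases hD : D = 0
          · subst hD
            have hp' : 0 < p := by linarith
            rw [ENNReal.coe_zero, mul_zero, ENNReal.zero_rpow_of_pos hp']
          · nth_rewrite 2 [← ENNReal.rpow_one (D : ℝ≥0∞)]
            rw [← ENNReal.rpow_add _ _ (by exact_mod_cast hD) ENNReal.coe_ne_top]
            congr 1
            ring
        exact h1

end Pool.Agent.MX
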