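import Mathlib

/-!
# Project MX (MP_84a211_an): definitions

`maxF B f` : the centred maximal function of the body `B` (averages over all dilates of `B`).
`Bdd p C B` : the maximal operator of `B` is bounded on `L^p` with constant `C`.
`unif B` : normalised Lebesgue measure on `B`.
`mx μ S f` : the maximal function of the measure `μ` over the finite set `S` of dilations.
`BddF p C μ` : the corresponding bound, for all finite `S`.
-/

set_option autoImplicit false

open MeasureTheory Set
open scoped Pointwise ENNReal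

namespace Pool.Agent.MX

section

variable {E : Type} [AddCommGroup E] [Module ℝ E] [MeasureSpace E]

/-- The centred maximal function of `f`, averages over `x + t B`, `t > 0`. -/
noncomputable def maxF (B : Set E) (f : E → ℝ) (x : E) : ℝ≥0∞ :=
  ⨆ t : ℝ, ⨆ (_ : 0 < t), (∫⁻ y in t • B, ‖f (x + y)‖ₑ) / volume (t • B)

/-- The maximal operator of `B` is bounded on `L^p` with constant `C`. -/
def Bdd (p : ℝ) (C : ℝ≥0∞) (B : Set E) : Prop :=
  ∀ f : E → ℝ, Measurable f → ∫⁻ x, maxF B f x ^ p ≤ C ^ p * ∫⁻ x, ‖f x‖ₑ ^ p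

/-- Normalised Lebesgue measure on `B`. -/
noncomputable def unif (B : Set E) : Measure E := (volume B)⁻¹ • (volume.restrict B)

/-- The maximal function of the measure `μ` over a finite set of dilations. -/
noncomputable def mx (μ : Measure E) (S : Finset ℝ) (f : E → ℝ≥0∞) (x : E) : ℝ≥0∞ :=
  ⨆ t ∈ S, ∫⁻ y, f (x + t • y) ∂μ

/-- The maximal operators of `μ` over finite sets of dilations are bounded on `L^p` with
constant `C`. -/
def BddF (p : ℝ) (C : ℝ≥0∞) (μ : Measure E) : Prop :=
  ∀ S : Finset ℝ, (∀ t ∈ S, 0 < t) → ∀ f : E → ℝ≥0∞, Measurable f →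
    ∫⁻ x, mx μ S f x ^ p ≤ C ^ p * ∫⁻ x, f x ^ p

end

/-- A symmetric convex body. -/
structure Body {E : Type} [AddCommGroup E] [Module ℝ E] [TopologicalSpace E] (B : Set E) :
    Prop where
  compact : IsCompact B
  convex : Convex ℝ B
  nonempty : (interior B).Nonempty
  symm : -B = B

/-- The zonotope with generators `v i`: all sums `∑ s i • v i`, `|s i| ≤ 1`. -/
def zono {ι : Type} [Fintype ι] {n : ℕ} (v : ι → Fin n → ℝ) : Set (Fin n → ℝ) :=
  {x | ∃ s : ι → ℝ, (∀ i, |s i| ≤ 1) ∧ x = ∑ i, s i • v i}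

/-- The cube `[-1,1]^ι`. -/
def cube (ι : Type) : Set (ι → ℝ) := {s | ∀ i, |s i| ≤ 1}

/-- The sum of the bodies `K i` (in the spaces `ℝ^(d i)`) with shape `D`: all `x = (x_i)` for which
the vector of the norms `‖x_i‖_{K i}` lies in `D`. -/
def bsum {k : ℕ} {d : Fin k → ℕ} (K : ∀ i, Set (Fin (d i) → ℝ)) (D : Set (Fin k → ℝ)) :
    Set (∀ i, Fin (d i) → ℝ) :=
  {x | (fun i => gauge (K i) (x i)) ∈ D}

end Pool.Agent.MX
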