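import Mathlib

/-!
# MX-Auerb: Auerbach bases for the `ℓ^1` norm on a subspace of `ℝ^ι`

Let `N z = ∑ i, |z i|` and `e` a basis of `W` indexed by `Fin k` (`Module.finBasisOfFinrankEq`).
On the set `S` of all `w : Fin k → W` (or `w : Fin k → ι → ℝ` with all `w j ∈ W`) with `N (w j) ≤ 1`
for all `j`, a compact set (closed and bounded in a finite-dimensional space), the continuous
function `|e.det w|` attains its maximum at some `b`. The maximum is positive (take a small multiple
of `e`). For `z ∈ W` with `N z ≤ 1`, `z = ∑ l, c l • b l`, the family `b` with `b j` replaced by `z` is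
in `S` and has determinant `c j * e.det b`, so `|c j| ≤ 1`. For general `c` apply this to
`z / N z` (`N z = 0` forces `z = 0`, so `c = 0` as `b` is linearly independent).
-/

set_option autoImplicit false

open Set

namespace Pool.Agent.MX

private theorem continuous_det {ι : Type} [Fintype ι] (W : Submodule ℝ (ι → ℝ)) {k : ℕ}
    (e : Module.Basis (Fin k) ℝ W) : Continuous fun w : Fin k → W => |e.det w| := by
  refine Continuous.abs ?_
  have h : (fun w : Fin k → W => e.det w) = fun w => (e.toMatrix w).det := by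
    funext w
    exact Module.Basis.det_apply e w
  show Continuous (fun w : Fin k → W => e.det w)
  rw [h]
  refine Continuous.matrix_det ?_
  refine continuous_matrix fun i j => ?_
  have h1 : (fun w : Fin k → W => e.toMatrix w i j) = fun w => (e.coord i) (w j) := by
    funext w
    rfl
  rw [h1]
  exact (LinearMap.continuous_of_finiteDimensional (e.coord i)).comp (continuous_apply j)

private theorem compact_set {ι : Type} [Fintype ι] (W : Submodule ℝ (ι → ℝ)) (k : ℕ) :
    IsCompact {w : Fin k → W | ∀ j, ∑ i, |(w j : ι → ℝ) i| ≤ 1} := by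
  refine Metric.isCompact_of_isClosed_isBounded ?_ ?_
  · have h : {w : Fin k → W | ∀ j, ∑ i, |(w j : ι → ℝ) i| ≤ 1}
        = ⋂ j, {w : Fin k → W | ∑ i, |(w j : ι → ℝ) i| ≤ 1} := by
      ext w
      simp only [mem_ofPred_eq, mem_iInter]
    rw [h]
    refine isClosed_iInter fun j => isClosed_le ?_ continuous_const
    refine continuous_finsetSum _ fun i _ => Continuous.abs ?_
    exact (continuous_apply i).comp (continuous_subtype_val.comp (continuous_apply j))
  · refine (Metric.isBounded_closedBall (x := (0 : Fin k → W)) (r := 1)).subset fun w hw => ?_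
    rw [mem_closedBall_zero_iff, pi_norm_le_iff_of_nonneg zero_le_one]
    intro j
    have h1 : ‖w j‖ = ‖(w j : ι → ℝ)‖ := rfl
    rw [h1, pi_norm_le_iff_of_nonneg zero_le_one]
    intro i
    rw [Real.norm_eq_abs]
    exact (Finset.single_le_sum (f := fun i => |(w j : ι → ℝ) i|) (fun i _ => abs_nonneg _)
      (Finset.mem_univ i)).trans (hw j)

theorem auerbach {ι : Type} [Fintype ι] (W : Submodule ℝ (ι → ℝ)) {k : ℕ}
    (hk : Module.finrank ℝ W = k) :
    ∃ b : Fin k → ι → ℝ, (∀ j, b j ∈ W) ∧ (∀ j, ∑ i, |b j i| ≤ 1) ∧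
      ∀ c : Fin k → ℝ, ∀ j, |c j| ≤ ∑ i, |∑ l, c l * b l i| := by
  classical
  let e : Module.Basis (Fin k) ℝ W := Module.finBasisOfFinrankEq ℝ W hk
  obtain ⟨b, hb, hmax⟩ := (compact_set W k).exists_isMaxOn
    ⟨0, fun j => by simp⟩ (continuous_det W e).continuousOn
  have hpos : e.det b ≠ 0 := by
    intro h0
    set T : ℝ := 1 + ∑ j, ∑ i, |(e j : ι → ℝ) i| with hT
    have hT0 : 0 ≤ ∑ j, ∑ i, |(e j : ι → ℝ) i| :=
      Finset.sum_nonneg fun j _ => Finset.sum_nonneg fun i _ => abs_nonneg _
    have hT1 : 0 < T := by linarith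
    have hmem : (fun j => T⁻¹ • e j) ∈ {w : Fin k → W | ∀ j, ∑ i, |(w j : ι → ℝ) i| ≤ 1} := by
      intro j
      have h1 : ∀ i, |((T⁻¹ • e j : W) : ι → ℝ) i| = T⁻¹ * |(e j : ι → ℝ) i| := by
        intro i
        have h2 : ((T⁻¹ • e j : W) : ι → ℝ) i = T⁻¹ * (e j : ι → ℝ) i := rfl
        rw [h2, abs_mul, abs_of_pos (inv_pos.2 hT1)]
      have h3 : ∑ i, |((T⁻¹ • e j : W) : ι → ℝ) i| = T⁻¹ * ∑ i, |(e j : ι → ℝ) i| := by
        rw [Finset.mul_sum]
        exact Finset.sum_congr rfl fun i _ => h1 i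
      show ∑ i, |((T⁻¹ • e j : W) : ι → ℝ) i| ≤ 1
      rw [h3, inv_mul_le_iff₀ hT1, mul_one]
      have h4 : ∑ i, |(e j : ι → ℝ) i| ≤ ∑ j, ∑ i, |(e j : ι → ℝ) i| :=
        Finset.single_le_sum (f := fun j => ∑ i, |(e j : ι → ℝ) i|)
          (fun j _ => Finset.sum_nonneg fun i _ => abs_nonneg _) (Finset.mem_univ j)
      linarith
    have h5 := hmax hmem
    have h6 : e.det (fun j => T⁻¹ • e j) = T⁻¹ ^ k := by
      have h7 := e.det.toMultilinearMap.map_smul_univ (fun _ : Fin k => T⁻¹) (fun j => e j)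
      have h8 : e.det.toMultilinearMap (fun j => e j) = 1 := e.det_self
      have h9 : e.det.toMultilinearMap (fun j => T⁻¹ • e j) = e.det (fun j => T⁻¹ • e j) := rfl
      rw [h9, h8] at h7
      rw [h7]
      simp
    have h7 : |e.det (fun j => T⁻¹ • e j)| ≤ |e.det b| := h5
    rw [h6, h0, abs_zero] at h7
    have h8 : 0 < T⁻¹ ^ k := pow_pos (inv_pos.2 hT1) k
    rw [abs_of_pos h8] at h7
    linarith
  have key : ∀ c : Fin k → ℝ, ∑ i, |∑ l, c l * (b l : ι → ℝ) i| ≤ 1 → ∀ j, |c j| ≤ 1 := by
    intro c hc j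
    set z : W := ∑ l, c l • b l with hz
    have hzi : ∀ i, (z : ι → ℝ) i = ∑ l, c l * (b l : ι → ℝ) i := by
      intro i
      rw [hz]
      simp [Finset.sum_apply]
    have hmem : Function.update b j z ∈ {w : Fin k → W | ∀ j, ∑ i, |(w j : ι → ℝ) i| ≤ 1} := by
      intro j'
      by_cases hj : j' = j
      · rw [hj, Function.update_self]
        calc ∑ i, |(z : ι → ℝ) i| = ∑ i, |∑ l, c l * (b l : ι → ℝ) i| :=
              Finset.sum_congr rfl fun i _ => by rw [hzi]
          _ ≤ 1 := hc
      · rw [Function.update_of_ne hj]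
        exact hb j'
    have h1 : |e.det (Function.update b j z)| ≤ |e.det b| := hmax hmem
    have h2 : e.det (Function.update b j z) = c j * e.det b := by
      have h3 : e.det (Function.update b j z)
          = ∑ l, e.det (Function.update b j (c l • b l)) := by
        rw [hz]
        exact e.det.toMultilinearMap.map_update_sum Finset.univ j (fun l => c l • b l) b
      rw [h3, Finset.sum_eq_single j]
      · rw [AlternatingMap.map_update_smul, Function.update_eq_self, smul_eq_mul]
      · intro l _ hl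
        rw [AlternatingMap.map_update_smul, AlternatingMap.map_update_self _ _ (Ne.symm hl),
          smul_zero]
      · intro h
        exact absurd (Finset.mem_univ j) h
    rw [h2, abs_mul] at h1
    have h4 : 0 < |e.det b| := abs_pos.2 hpos
    by_contra h5
    push Not at h5
    have h6 : 1 * |e.det b| < |c j| * |e.det b| := mul_lt_mul_of_pos_right h5 h4
    linarith
  refine ⟨fun j => (b j : ι → ℝ), fun j => (b j).2, hb, fun c j => ?_⟩
  refine le_of_forall_pos_le_add fun ε hε => ?_
  set M : ℝ := ∑ i, |∑ l, c l * (b l : ι → ℝ) i| with hM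
  have hM0 : 0 ≤ M := Finset.sum_nonneg fun i _ => abs_nonneg _
  have hMe : 0 < M + ε := by linarith
  have h1 := key (fun l => (M + ε)⁻¹ * c l) (by
    have h2 : ∀ i, |∑ l, (M + ε)⁻¹ * c l * (b l : ι → ℝ) i|
        = (M + ε)⁻¹ * |∑ l, c l * (b l : ι → ℝ) i| := by
      intro i
      have h3 : ∑ l, (M + ε)⁻¹ * c l * (b l : ι → ℝ) i
          = (M + ε)⁻¹ * ∑ l, c l * (b l : ι → ℝ) i := by
        rw [Finset.mul_sum]
        exact Finset.sum_congr rfl fun l _ => by ring
      rw [h3, abs_mul, abs_of_pos (inv_pos.2 hMe)]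
    calc ∑ i, |∑ l, (M + ε)⁻¹ * c l * (b l : ι → ℝ) i|
        = ∑ i, (M + ε)⁻¹ * |∑ l, c l * (b l : ι → ℝ) i| := Finset.sum_congr rfl fun i _ => h2 i
      _ = (M + ε)⁻¹ * M := by rw [← Finset.mul_sum]
      _ ≤ 1 := by
          rw [inv_mul_le_iff₀ hMe, mul_one]
          linarith) j
  rw [abs_mul, abs_of_pos (inv_pos.2 hMe), inv_mul_le_iff₀ hMe, mul_one] at h1
  exact h1

end Pool.Agent.MX
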