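import Pool.Agent.MX.Defs

/-!
# MX-Cells: the cover of a sum of bodies by boxes of comparable total volume

Notation: `rad m i = 2 ^ (m / d i)` for `m : ℤ` (so `rad` is increasing in `m`, and
`volume (rad m i • K i) = 2 ^ m * volume (K i)`, because `Measure.addHaar_smul` gives the factor
`|rad m i ^ d i| = 2 ^ m`).

One body `K` in `ℝ^d`, `d > 0` (`0 ∈ interior K` because `K` is convex, symmetric, with interior
point: `K` is absorbing; `K` is closed and bounded):
* `gauge K x ≤ r ↔ x ∈ r • K` for `r > 0` (`gauge_le_one_iff_mem_closure`, `gauge_smul_of_nonneg`),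
  `0 < gauge K x` for `x ≠ 0` (`gauge_pos`), `0 < volume K < ∞`.
* For `x ≠ 0` there is exactly one `m : ℤ` with `rad m < gauge K x ≤ rad (m + 1)`
  (`exists_mem_Ioc_zpow` for the base `2 ^ (1 / d) > 1`).

For `j : Fin k → ℤ` let `cell j = {x | ∀ i, rad (j i) i < gauge (K i) (x i) ≤ rad (j i + 1) i}`; the
cells are disjoint and `volume (cell j) = ∏ i, (2 ^ (j i + 1) - 2 ^ (j i)) * volume (K i)
= ∏ i, 2 ^ (j i) * volume (K i)`. Say that `j` meets `D` if there is `r ∈ D` with
`rad (j i) i < r i ≤ rad (j i + 1) i` for all `i`. Let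
`J = {j | j meets D and j + 1 does not meet D}` (`j + 1 = fun i => j i + 1`).
* Cover: let `x ∈ bsum K D` with all `x i ≠ 0` (the exceptions are a null set: the `i`-th one lies
  in the preimage of a point under the projection to `ℝ^(d i)`, `d i > 0`). Then `x ∈ cell j` for
  some `j` that meets `D`. The `m : ℕ` such that `j + m` meets `D` are bounded (`D` is bounded and
  `k > 0`), so there is `m ≥ 0` with `j + m ∈ J` (take the first `m` such that `j + m + 1` does not
  meet `D`), and `x i ∈ rad (j i + 1) i • K i ⊆ rad (j i + m + 1) i • K i`.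
* Volume: for `j ∈ J` the corner `(rad (j i) i)_i` lies in `D` (`hDd`), so `cell (j - 1) ⊆ bsum K D`
  (gauges `≤ rad (j i) i`). These cells are pairwise disjoint, so
  `∑' j : J, volume (cell (j - 1)) ≤ volume (bsum K D)` (`tsum_measure_le_measure_univ` or
  `measure_iUnion`), and `volume (box j) = ∏ 2 ^ (j i + 1) * volume (K i)
  = 4 ^ k * volume (cell (j - 1))`.
-/

set_option autoImplicit false

open MeasureTheory Set
open scoped Pointwise ENNReal NNReal

namespace Pool.Agent.MX

/-- The radius `2 ^ (m / d)`. -/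
noncomputable def rad (d : ℕ) (m : ℤ) : ℝ := (2 : ℝ) ^ ((m : ℝ) / (d : ℝ))

theorem rad_pos (d : ℕ) (m : ℤ) : 0 < rad d m := by
  unfold rad
  positivity

theorem Body.zero_mem_interior {E : Type} [AddCommGroup E] [Module ℝ E] [TopologicalSpace E]
    [IsTopologicalAddGroup E] [ContinuousSMul ℝ E] {B : Set E} (h : Body B) :
    (0 : E) ∈ interior B := by
  obtain ⟨x, hx⟩ := h.nonempty
  have hnx : -x ∈ interior B := by
    have h1 : interior (-B) = -interior B := by
      rw [← Set.image_neg_eq_neg, ← Set.image_neg_eq_neg]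
      exact ((Homeomorph.neg E).image_interior B).symm
    rw [← h.symm, h1]
    simpa using hx
  have hc := h.convex.interior
  have := hc hx hnx (by norm_num : (0:ℝ) ≤ 1/2) (by norm_num : (0:ℝ) ≤ 1/2) (by norm_num)
  simpa using this

theorem Body.nhds {E : Type} [AddCommGroup E] [Module ℝ E] [TopologicalSpace E]
    [IsTopologicalAddGroup E] [ContinuousSMul ℝ E] {B : Set E} (h : Body B) :
    B ∈ nhds (0 : E) := mem_interior_iff_mem_nhds.1 h.zero_mem_interior

theorem Body.gauge_le_iff {n : ℕ} {K : Set (Fin n → ℝ)} (h : Body K) {r : ℝ} (hr : 0 < r)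
    (x : Fin n → ℝ) : gauge K x ≤ r ↔ x ∈ r • K := by
  have h1 : gauge K (r⁻¹ • x) = r⁻¹ * gauge K x := by
    rw [gauge_smul_of_nonneg (inv_nonneg.2 hr.le), smul_eq_mul]
  have h2 := gauge_le_one_iff_mem_closure (x := r⁻¹ • x) h.convex h.nhds
  rw [h.compact.isClosed.closure_eq, h1] at h2
  rw [Set.mem_smul_set_iff_inv_smul_mem₀ hr.ne', ← h2, inv_mul_le_iff₀ hr, mul_one]

theorem Body.volume_pos {n : ℕ} {K : Set (Fin n → ℝ)} (h : Body K) : volume K ≠ 0 :=
  (Measure.measure_pos_of_nonempty_interior volume h.nonempty).ne'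

theorem Body.volume_lt_top {n : ℕ} {K : Set (Fin n → ℝ)} (h : Body K) : volume K ≠ ∞ :=
  h.compact.measure_lt_top.ne

theorem Body.gauge_pos' {n : ℕ} {K : Set (Fin n → ℝ)} (h : Body K) {x : Fin n → ℝ}
    (hx : x ≠ 0) : 0 < gauge K x :=
  (gauge_pos (absorbent_nhds_zero h.nhds)
    ((NormedSpace.isVonNBounded_iff ℝ).2 h.compact.isBounded)).2 hx

theorem rad_eq_zpow {d : ℕ} (m : ℤ) : rad d m = ((2 : ℝ) ^ ((1 : ℝ) / d)) ^ m := by
  unfold rad
  rw [← Real.rpow_intCast, ← Real.rpow_mul (by norm_num)]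
  congr 1
  ring

theorem base_gt_one {d : ℕ} (hd : 0 < d) : (1 : ℝ) < (2 : ℝ) ^ ((1 : ℝ) / d) := by
  apply Real.one_lt_rpow (by norm_num)
  positivity

theorem rad_strictMono {d : ℕ} (hd : 0 < d) : StrictMono (rad d) := by
  intro a b hab
  rw [rad_eq_zpow, rad_eq_zpow]
  exact (zpow_lt_zpow_iff_right₀ (base_gt_one hd)).2 hab

theorem rad_pow {d : ℕ} (hd : 0 < d) (m : ℤ) : rad d m ^ d = (2 : ℝ) ^ m := by
  unfold rad
  rw [← Real.rpow_natCast, ← Real.rpow_mul (by norm_num), div_mul_cancel₀, Real.rpow_intCast]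
  exact_mod_cast hd.ne'

theorem Body.volume_rad {n : ℕ} (hn : 0 < n) (K : Set (Fin n → ℝ)) (m : ℤ) :
    volume (rad n m • K) = ENNReal.ofReal ((2 : ℝ) ^ m) * volume K := by
  rw [Measure.addHaar_smul]
  congr 2
  rw [Module.finrank_fin_fun, rad_pow hn, abs_of_pos (by positivity)]

theorem Body.volume_rad_succ {n : ℕ} (hn : 0 < n) (K : Set (Fin n → ℝ)) (m : ℤ) :
    volume (rad n (m + 1) • K) = 2 * volume (rad n m • K) := by
  rw [Body.volume_rad hn, Body.volume_rad hn, ← mul_assoc]
  congr 1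
  rw [zpow_add₀ (by norm_num), zpow_one, mul_comm, ENNReal.ofReal_mul (by norm_num)]
  simp

/-- The shell of radius index `m`. -/
def shell {n : ℕ} (K : Set (Fin n → ℝ)) (m : ℤ) : Set (Fin n → ℝ) :=
  {x | rad n m < gauge K x ∧ gauge K x ≤ rad n (m + 1)}

theorem Body.measurable_shell {n : ℕ} {K : Set (Fin n → ℝ)} (h : Body K) (m : ℤ) :
    MeasurableSet (shell K m) := by
  have hc : Continuous (gauge K) := continuous_gauge h.convex h.nhds
  exact (measurableSet_lt measurable_const hc.measurable).inter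
    (measurableSet_le hc.measurable measurable_const)

theorem Body.volume_shell {n : ℕ} (hn : 0 < n) {K : Set (Fin n → ℝ)} (h : Body K) (m : ℤ) :
    volume (shell K m) = volume (rad n m • K) := by
  have h1 : shell K m = (rad n (m + 1) • K) \ (rad n m • K) := by
    ext x
    simp only [shell, Set.mem_setOf_eq, Set.mem_diff, ← h.gauge_le_iff (rad_pos n m),
      ← h.gauge_le_iff (rad_pos n (m + 1)), not_le]
    exact and_comm
  have hsub : rad n m • K ⊆ rad n (m + 1) • K := by
    intro x hx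
    rw [← h.gauge_le_iff (rad_pos n m)] at hx
    rw [← h.gauge_le_iff (rad_pos n (m + 1))]
    exact hx.trans (rad_strictMono hn (by omega)).le
  have hcl : MeasurableSet (rad n m • K) := by
    have : IsClosed (rad n m • K) := h.compact.isClosed.smul_of_ne_zero (rad_pos n m).ne'
    exact this.measurableSet
  have hfin : volume (rad n m • K) ≠ ∞ := by
    rw [Body.volume_rad hn]
    exact ENNReal.mul_ne_top ENNReal.ofReal_ne_top h.volume_lt_top
  rw [h1, measure_diff hsub hcl.nullMeasurableSet hfin, Body.volume_rad_succ hn, two_mul]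
  exact ENNReal.add_sub_cancel_right hfin

theorem bsum_cover {k : ℕ} (hk : 0 < k) {d : Fin k → ℕ} (hd : ∀ i, 0 < d i)
    {K : ∀ i, Set (Fin (d i) → ℝ)} (hK : ∀ i, Body (K i)) {D : Set (Fin k → ℝ)}
    (hDd : ∀ r ∈ D, ∀ r' : Fin k → ℝ, (∀ i, 0 ≤ r' i ∧ r' i ≤ r i) → r' ∈ D)
    (hDb : ∃ M : ℝ, ∀ r ∈ D, ∀ i, r i ≤ M) :
    ∃ J : Set (Fin k → ℤ),
      volume (bsum K D \ ⋃ j : J, Set.univ.pi (fun i => rad (d i) (j.1 i + 1) • K i)) = 0 ∧
      ∑' j : J, volume (Set.univ.pi (fun i => rad (d i) (j.1 i + 1) • K i)) ≤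
        4 ^ k * volume (bsum K D) := by
  refine ⟨{j | ∃ r ∈ D, ∀ i, rad (d i) (j i) < r i ∧ r i ≤ rad (d i) (j i + 1)}, ?_, ?_⟩
  · have hsub : (bsum K D \ ⋃ j : ({j | ∃ r ∈ D, ∀ i, rad (d i) (j i) < r i ∧
        r i ≤ rad (d i) (j i + 1)} : Set (Fin k → ℤ)),
        Set.univ.pi (fun i => rad (d i) (j.1 i + 1) • K i)) ⊆
        ⋃ i, {x : ∀ i, Fin (d i) → ℝ | x i = 0} := by
      rintro x ⟨hx, hn⟩
      by_contra hcon
      apply hn
      have hne : ∀ i, x i ≠ 0 := by
        intro i hi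
        exact hcon (Set.mem_iUnion.2 ⟨i, hi⟩)
      have hex : ∀ i, ∃ m : ℤ, rad (d i) m < gauge (K i) (x i) ∧
          gauge (K i) (x i) ≤ rad (d i) (m + 1) := by
        intro i
        obtain ⟨m, hm⟩ := exists_mem_Ioc_zpow ((hK i).gauge_pos' (hne i)) (base_gt_one (hd i))
        refine ⟨m, ?_, ?_⟩
        · rw [rad_eq_zpow]; exact hm.1
        · rw [rad_eq_zpow]; exact hm.2
      choose j hj using hex
      refine Set.mem_iUnion.2 ⟨⟨j, _, hx, hj⟩, ?_⟩
      intro i _
      exact ((hK i).gauge_le_iff (rad_pos _ _) _).1 (hj i).2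
    refine measure_mono_null hsub (measure_iUnion_null fun i => ?_)
    haveI : Nonempty (Fin (d i)) := ⟨⟨0, hd i⟩⟩
    rw [volume_pi]
    exact Measure.pi_hyperplane _ i 0
  · have hbox : ∀ j : Fin k → ℤ,
        volume (Set.univ.pi (fun i => rad (d i) (j i + 1) • K i)) =
          4 ^ k * volume (Set.univ.pi (fun i => shell (K i) (j i - 1))) := by
      intro j
      rw [volume_pi, Measure.pi_pi, Measure.pi_pi]
      have : ∀ i, volume (rad (d i) (j i + 1) • K i) = 4 * volume (shell (K i) (j i - 1)) := by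
        intro i
        rw [(hK i).volume_shell (hd i), Body.volume_rad_succ (hd i)]
        have := Body.volume_rad_succ (hd i) (K i) (j i - 1)
        rw [sub_add_cancel] at this
        rw [this, ← mul_assoc]
        norm_num
      simp_rw [this]
      rw [Finset.prod_mul_distrib]
      simp
    simp_rw [hbox]
    rw [ENNReal.tsum_mul_left]
    gcongr
    rw [← measure_iUnion]
    · apply measure_mono
      intro x hx
      obtain ⟨⟨j, r, hr, hj⟩, hx⟩ := Set.mem_iUnion.1 hx
      refine hDd r hr _ fun i => ⟨gauge_nonneg _, ?_⟩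
      have h1 := (hx i (Set.mem_univ i)).2
      rw [sub_add_cancel] at h1
      exact h1.trans (hj i).1.le
    · rintro ⟨j, _⟩ ⟨j', _⟩ hne
      have hne' : j ≠ j' := fun h => hne (Subtype.ext h)
      obtain ⟨i, hi⟩ := Function.ne_iff.1 hne'
      rw [Function.onFun, Set.disjoint_left]
      intro x hx hx'
      have h1 := hx i (Set.mem_univ i)
      have h2 := hx' i (Set.mem_univ i)
      simp only [shell, Set.mem_setOf_eq] at h1 h2
      rcases lt_or_gt_of_ne hi with h | h
      · have := (rad_strictMono (hd i)).monotone (show j i - 1 + 1 ≤ j' i - 1 by omega)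
        linarith [h1.2, h2.1]
      · have := (rad_strictMono (hd i)).monotone (show j' i - 1 + 1 ≤ j i - 1 by omega)
        linarith [h1.1, h2.2]
    · rintro ⟨j, _⟩
      exact MeasurableSet.univ_pi fun i => (hK i).measurable_shell _

end Pool.Agent.MX
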