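import Pool.Agent.MX.Basic

/-!
# MX-Conv1: from the maximal operator of the body to finite sets of dilations

`bddF_of_bdd`. Let `S` be a finite set of `t > 0` and `f : E → ℝ≥0∞` measurable. For `m : ℕ` put
`g m x := (min (f x) m).toReal`, a measurable real function with `‖g m x‖ₑ = min (f x) m`.

* For `t ∈ S`, `∫⁻ y, min (f (x + t • y)) m ∂(unif B) = (∫⁻ y in t • B, ‖g m (x + y)‖ₑ) /
  volume (t • B) ≤ maxF B (g m) x` by `lintegral_unif_smul`. So
  `mx (unif B) S (fun x => min (f x) m) x ≤ maxF B (g m) x` and, by `Bdd`,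
  `∫⁻ (mx (unif B) S (min f m)) ^ p ≤ C ^ p * ∫⁻ (min (f x) m) ^ p ≤ C ^ p * ∫⁻ (f x) ^ p`.
* `mx (unif B) S f x = ⨆ m, mx (unif B) S (min f m) x` (monotone convergence `lintegral_iSup` in
  each integral, `iSup_comm`), the `p`-th power of the supremum is the supremum of the `p`-th powers
  (`ENNReal.iSup_rpow` or monotone + continuous), and monotone convergence again (measurability
  from `measurable_mx`).
-/

set_option autoImplicit false

open MeasureTheory Set
open scoped Pointwise ENNReal NNReal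

namespace Pool.Agent.MX

variable {E : Type} [NormedAddCommGroup E] [NormedSpace ℝ E] [FiniteDimensional ℝ E]
  [MeasureSpace E] [BorelSpace E] [Measure.IsAddHaarMeasure (volume : Measure E)]

private theorem c1_min (a : ℝ≥0∞) (m : ℕ) : ‖(min a (m : ℝ≥0∞)).toReal‖ₑ = min a (m : ℝ≥0∞) := by
  rw [Real.enorm_of_nonneg ENNReal.toReal_nonneg, ENNReal.ofReal_toReal]
  exact ne_top_of_le_ne_top (ENNReal.natCast_ne_top m) (min_le_right _ _)

private theorem c1_iSup (a : ℝ≥0∞) : ⨆ m : ℕ, min a (m : ℝ≥0∞) = a := by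
  have h := inf_iSup_eq a (fun m : ℕ => (m : ℝ≥0∞))
  rw [ENNReal.iSup_natCast, inf_top_eq] at h
  exact h.symm

private theorem c1_rpow {p : ℝ} (hp : 0 < p) (a : ℕ → ℝ≥0∞) : (⨆ m, a m) ^ p = ⨆ m, a m ^ p := by
  have h := (ENNReal.orderIsoRpow p hp).map_iSup a
  simpa only [ENNReal.orderIsoRpow_apply] using h

theorem bddF_of_bdd {p : ℝ} (hp : 0 < p) {C : ℝ≥0∞} {B : Set E} (hB1 : volume B ≠ ∞)
    (h : Bdd p C B) : BddF p C (unif B) := by
  have _ := FiniteDimensional.proper ℝ E
  intro S hS f hf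
  have hsf : SFinite (unif B) := by unfold unif; infer_instance
  have hm : ∀ m : ℕ, Measurable (fun x => min (f x) (m : ℝ≥0∞)) := fun m => hf.min measurable_const
  -- each truncation
  have h1 : ∀ m : ℕ, ∫⁻ x, mx (unif B) S (fun x => min (f x) (m : ℝ≥0∞)) x ^ p ≤
      C ^ p * ∫⁻ x, f x ^ p := by
    intro m
    have h2 := h (fun x => (min (f x) (m : ℝ≥0∞)).toReal) (hm m).ennreal_toReal
    simp only [c1_min] at h2
    refine le_trans (lintegral_mono fun x => ENNReal.rpow_le_rpow ?_ hp.le) (le_trans h2 ?_)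
    · unfold mx maxF
      refine iSup₂_le fun t ht => ?_
      refine le_trans (le_of_eq ?_) (le_iSup₂ (f := fun (t : ℝ) (_ : 0 < t) =>
        (∫⁻ y in t • B, ‖(min (f (x + y)) (m : ℝ≥0∞)).toReal‖ₑ) / volume (t • B)) t (hS t ht))
      simp only [c1_min]
      exact lintegral_unif_smul B (hS t ht) x (fun z => min (f z) (m : ℝ≥0∞))
    · refine mul_le_mul_right (lintegral_mono fun x => ENNReal.rpow_le_rpow (min_le_left _ _) hp.le) _
  -- the supremum of the truncations
  have h3 : ∀ x, mx (unif B) S f x = ⨆ m : ℕ, mx (unif B) S (fun x => min (f x) (m : ℝ≥0∞)) x := by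
    intro x
    unfold mx
    rw [iSup_comm]
    refine iSup_congr fun t => ?_
    rw [iSup_comm]
    refine iSup_congr fun _ => ?_
    rw [← lintegral_iSup]
    · simp only [c1_iSup]
    · intro m
      exact (hm m).comp (measurable_const.add (measurable_id.const_smul t))
    · intro m n hmn y
      exact min_le_min le_rfl (Nat.cast_le.2 hmn)
  simp only [h3, c1_rpow hp]
  rw [lintegral_iSup]
  · exact iSup_le h1
  · intro m
    exact (measurable_mx (unif B) S (hm m)).pow_const p
  · intro m n hmn x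
    refine ENNReal.rpow_le_rpow ?_ hp.le
    exact mx_mono (unif B) (Finset.Subset.refl S) (fun y => min_le_min le_rfl (Nat.cast_le.2 hmn)) x

end Pool.Agent.MX
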