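import Mathlib

/-!
# MX-Fib: the volume of the fibres of the cube

`slab`: `∫⁻ s : ι → ℝ, 1_Q(s) * 1_Q(s + z) = ∏ i, ofReal (2 - |z i|)` for the cube `Q = [-1,1]^ι`: the
set of `s` with `|s i| ≤ 1`, `|s i + z i| ≤ 1` for all `i` is the box of the intervals
`Icc (max (-1) (-1 - z i)) (min 1 (1 - z i))` of length `2 - |z i|` (`Real.volume_pi...`,
`volume_pi_pi`, `Real.volume_Icc`; `ofReal` takes care of `|z i| > 2`).

`fib_int`: `ofReal (2 - u) ≤ ofReal (2 * exp (- u / 2))` for `u ≥ 0` (`Real.add_one_le_exp`), so the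
product is at most `2 ^ card ι * exp (- (∑ i, |∑ l, c l * b l i|) / 2)`. By `hb`,
`∑ i, |∑ l, c l * b l i| ≥ |c j|` for every `j`, hence it is at least `(∑ j, |c j|) / k`. So the
integral is at most `2 ^ card ι * ∏ j, ∫⁻ c, ofReal (exp (- |c| / (2 k)))` and the one-dimensional
integral is `4 k` (`integral_exp_neg_abs`-like facts: `integral_exp_neg_Ioi` after scaling, or
`integrable_exp_neg_abs`...; product: `lintegral_fin_prod..`/`volume_pi`, `lintegral_prod` by
induction, or `MeasureTheory.integral_fintype_prod_eq_prod`). For `k = 0` both sides are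
`2 ^ card ι`.
-/

set_option autoImplicit false

open MeasureTheory Set
open scoped ENNReal NNReal

namespace Pool.Agent.MX

theorem slab {ι : Type} [Fintype ι] (z : ι → ℝ) :
    volume {s : ι → ℝ | (∀ i, |s i| ≤ 1) ∧ ∀ i, |s i + z i| ≤ 1} =
      ∏ i, ENNReal.ofReal (2 - |z i|) := by
  have hset : {s : ι → ℝ | (∀ i, |s i| ≤ 1) ∧ ∀ i, |s i + z i| ≤ 1} =
      Set.pi univ (fun i => Icc (max (-1) (-1 - z i)) (min 1 (1 - z i))) := by
    ext s
    simp only [mem_setOf_eq, Set.mem_pi, mem_univ, forall_true_left, mem_Icc, max_le_iff,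
      le_min_iff, abs_le]
    constructor
    · rintro ⟨h1, h2⟩ i
      exact ⟨⟨(h1 i).1, by linarith [(h2 i).1]⟩, (h1 i).2, by linarith [(h2 i).2]⟩
    · intro h
      exact ⟨fun i => ⟨(h i).1.1, (h i).2.1⟩,
        fun i => ⟨by linarith [(h i).1.2], by linarith [(h i).2.2]⟩⟩
  rw [hset, volume_pi_pi]
  refine Finset.prod_congr rfl fun i _ => ?_
  rw [Real.volume_Icc]
  congr 1
  rcases le_total 0 (z i) with h | h
  · rw [abs_of_nonneg h, min_eq_right (by linarith), max_eq_left (by linarith)]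
    ring
  · rw [abs_of_nonpos h, min_eq_left (by linarith), max_eq_right (by linarith)]
    ring

/-- the one-dimensional integral -/
private theorem fib_one {k : ℕ} (hk : 0 < k) :
    ∫ x : ℝ, Real.exp (-(|x| / (2 * k))) = 4 * k := by
  have hk' : (0 : ℝ) < k := by exact_mod_cast hk
  have h1 := integral_comp_abs (f := fun x : ℝ => Real.exp (-(x / (2 * k))))
  rw [h1]
  have h2 : (fun x : ℝ => Real.exp (-(x / (2 * k)))) =
      fun x : ℝ => Real.exp ((-(1 / (2 * (k : ℝ)))) * x) := by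
    funext x
    congr 1
    ring
  have ha : (-(1 / (2 * (k : ℝ)))) < 0 := by
    rw [neg_lt_zero]
    positivity
  rw [h2, integral_exp_mul_Ioi ha, mul_zero, Real.exp_zero]
  field_simp
  ring

private theorem fib_prod (k : ℕ) :
    ∫ c : Fin k → ℝ, ∏ j, Real.exp (-(|c j| / (2 * k))) = (4 * (k : ℝ)) ^ k := by
  have h1 := integral_fintype_prod_volume_eq_pow (ι := Fin k) (𝕜 := ℝ)
    (fun x : ℝ => Real.exp (-(|x| / (2 * k))))
  rw [h1, Fintype.card_fin]
  rcases Nat.eq_zero_or_pos k with rfl | hk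
  · simp
  · rw [fib_one hk]

private theorem fib_lint (k : ℕ) :
    ∫⁻ c : Fin k → ℝ, ENNReal.ofReal (∏ j, Real.exp (-(|c j| / (2 * k)))) =
      (4 * (k : ℝ≥0∞)) ^ k := by
  have h1 := fib_prod k
  have h2 : (∫ c : Fin k → ℝ, ∏ j, Real.exp (-(|c j| / (2 * k)))) ≠ 0 := by
    rw [h1]
    rcases Nat.eq_zero_or_pos k with rfl | hk
    · simp
    · have hk' : (0 : ℝ) < k := by exact_mod_cast hk
      positivity
  have hint : Integrable fun c : Fin k → ℝ => ∏ j, Real.exp (-(|c j| / (2 * k))) := by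
    by_contra hc
    exact h2 (integral_undef hc)
  rw [← ofReal_integral_eq_lintegral_ofReal hint
    (Filter.Eventually.of_forall fun c => Finset.prod_nonneg fun j _ => (Real.exp_pos _).le), h1,
    ENNReal.ofReal_pow (by positivity), ENNReal.ofReal_mul (by norm_num), ENNReal.ofReal_natCast]
  norm_num

theorem fib_int {ι : Type} [Fintype ι] {k : ℕ} (b : Fin k → ι → ℝ)
    (hb : ∀ c : Fin k → ℝ, ∀ j, |c j| ≤ ∑ i, |∑ l, c l * b l i|) :
    ∫⁻ c : Fin k → ℝ, ∏ i, ENNReal.ofReal (2 - |∑ l, c l * b l i|) ≤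
      2 ^ Fintype.card ι * (4 * (k : ℝ≥0∞)) ^ k := by
  rw [← fib_lint k, ← lintegral_const_mul' _ _ (by finiteness)]
  refine lintegral_mono fun c => ?_
  set a : ι → ℝ := fun i => ∑ l, c l * b l i with ha
  have h1 : ∏ i, ENNReal.ofReal (2 - |∑ l, c l * b l i|) ≤
      ∏ i, ENNReal.ofReal (2 * Real.exp (-(|a i| / 2))) := by
    refine Finset.prod_le_prod' fun i _ => ENNReal.ofReal_le_ofReal ?_
    have h2 := Real.add_one_le_exp (-(|a i| / 2))
    change 2 - |a i| ≤ _
    linarith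
  refine h1.trans ?_
  rw [← ENNReal.ofReal_prod_of_nonneg (fun i _ => by positivity), Finset.prod_mul_distrib,
    Finset.prod_const, Finset.card_univ, ENNReal.ofReal_mul (by positivity),
    ENNReal.ofReal_pow (by norm_num), ← Real.exp_sum, ← Real.exp_sum]
  have h3 : ENNReal.ofReal 2 = 2 := by norm_num
  rw [h3]
  refine mul_le_mul_right (ENNReal.ofReal_le_ofReal (Real.exp_le_exp.2 ?_)) _
  rw [Finset.sum_neg_distrib, Finset.sum_neg_distrib, neg_le_neg_iff, ← Finset.sum_div,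
    ← Finset.sum_div]
  have hA : 0 ≤ ∑ i, |a i| := Finset.sum_nonneg fun i _ => abs_nonneg _
  have h4 : ∑ j, |c j| ≤ k * ∑ i, |a i| := by
    have h5 : ∑ j, |c j| ≤ ∑ _j : Fin k, ∑ i, |a i| := Finset.sum_le_sum fun j _ => hb c j
    rwa [Finset.sum_const, Finset.card_univ, Fintype.card_fin, nsmul_eq_mul] at h5
  refine div_le_of_le_mul₀ (by positivity) (by positivity) ?_
  linarith

end Pool.Agent.MX
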