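import Mathlib

/-!
# MX-Fub: linear change of variables along the fibres of `s ↦ ∑ i, s i • v i`

`P s := ∑ i, s i • v i` is a surjective linear map `ℝ^ι → ℝ^n` (its range is the span of `v`), with
kernel of dimension `k`; `b` is a basis of the kernel (linearly independent by `hb`). Let `w m` be a
preimage of the `m`-th unit vector, `σ x := ∑ m, x m • w m` (so `P (σ x) = x`). Then
`Φ (x, c) := σ x + ∑ l, c l • b l` is a linear bijection `ℝ^n × ℝ^k → ℝ^ι`: injective, as
`P (Φ (x, c)) = x`, and the dimensions agree (`LinearEquiv.ofInjective...`,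
`LinearMap.linearEquivOfInjective`). The image of the product measure under `Φ` is an additive Haar
measure (`LinearEquiv.isAddHaarMeasure_map` / `ContinuousLinearEquiv.isAddHaarMeasure_map`), so it is
`c₀ • volume` with `0 < c₀ < ∞` (`Measure.isAddLeftInvariant_eq_smul`,
`Measure.isAddHaarMeasure_eq_smul`, ...), and `κ = c₀⁻¹`.
-/

set_option autoImplicit false

open MeasureTheory Set
open scoped ENNReal NNReal

namespace Pool.Agent.MX

private theorem lc_surj {ι : Type} [Fintype ι] {n : ℕ} (v : ι → Fin n → ℝ)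
    (hv : Submodule.span ℝ (Set.range v) = ⊤) :
    LinearMap.range (Fintype.linearCombination ℝ v) = ⊤ := by
  rw [Fintype.range_linearCombination, hv]

/-- The kernel of `s ↦ ∑ i, s i • v i` has dimension `k`. -/
theorem finrank_ker {ι : Type} [Fintype ι] {n k : ℕ} (v : ι → Fin n → ℝ)
    (hcard : Fintype.card ι = n + k) (hv : Submodule.span ℝ (Set.range v) = ⊤) :
    Module.finrank ℝ (LinearMap.ker (Fintype.linearCombination ℝ v)) = k := by
  have h := LinearMap.finrank_range_add_finrank_ker (Fintype.linearCombination ℝ v)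
  rw [lc_surj v hv, finrank_top, Module.finrank_fintype_fun_eq_card,
    Module.finrank_fintype_fun_eq_card, hcard, Fintype.card_fin] at h
  omega

theorem exists_kappa {ι : Type} [Fintype ι] {n k : ℕ} (v : ι → Fin n → ℝ)
    (hcard : Fintype.card ι = n + k) (hv : Submodule.span ℝ (Set.range v) = ⊤)
    (b : Fin k → ι → ℝ) (hbker : ∀ l, ∑ i, b l i • v i = 0)
    (hb : ∀ c : Fin k → ℝ, ∀ j, |c j| ≤ ∑ i, |∑ l, c l * b l i|) :
    ∃ (w : Fin n → ι → ℝ) (κ : ℝ≥0∞), κ ≠ 0 ∧ κ ≠ ∞ ∧
      (∀ (x : Fin n → ℝ) (c : Fin k → ℝ),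
        ∑ i, (∑ m, x m * w m i + ∑ l, c l * b l i) • v i = x) ∧
      (∀ s : ι → ℝ, ∃ c : Fin k → ℝ, ∀ i,
        s i = ∑ m, (∑ i', s i' • v i') m * w m i + ∑ l, c l * b l i) ∧
      ∀ g : (ι → ℝ) → ℝ≥0∞, Measurable g →
        ∫⁻ s, g s = κ * ∫⁻ x : Fin n → ℝ, ∫⁻ c : Fin k → ℝ,
          g (fun i => ∑ m, x m * w m i + ∑ l, c l * b l i) := by
  classical
  set P := Fintype.linearCombination ℝ v with hP
  have hPa : ∀ s : ι → ℝ, P s = ∑ i, s i • v i := fun s => Fintype.linearCombination_apply ℝ v s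
  have hsurj : ∀ y : Fin n → ℝ, ∃ s, P s = y := LinearMap.range_eq_top.1 (lc_surj v hv)
  choose w hw using fun m : Fin n => hsurj (Pi.single m 1)
  -- the linear map
  let A : (Fin n → ℝ) →ₗ[ℝ] (ι → ℝ) := Fintype.linearCombination ℝ w
  let B : (Fin k → ℝ) →ₗ[ℝ] (ι → ℝ) := Fintype.linearCombination ℝ b
  let Φ : ((Fin n → ℝ) × (Fin k → ℝ)) →ₗ[ℝ] (ι → ℝ) := A.coprod B
  have hΦ : ∀ x c, Φ (x, c) = fun i => ∑ m, x m * w m i + ∑ l, c l * b l i := by
    intro x c
    funext i
    simp only [Φ, A, B, LinearMap.coprod_apply, Fintype.linearCombination_apply, Pi.add_apply,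
      Finset.sum_apply, Pi.smul_apply, smul_eq_mul]
  have hPA : ∀ x, P (A x) = x := by
    intro x
    simp only [A, Fintype.linearCombination_apply, map_sum, map_smul, hw]
    funext j
    simp [Finset.sum_apply, Pi.single_apply]
  have hPB : ∀ c, P (B c) = 0 := by
    intro c
    have h1 : ∀ l, P (b l) = 0 := fun l => by rw [hPa]; exact hbker l
    simp only [B, Fintype.linearCombination_apply, map_sum, map_smul, h1, smul_zero,
      Finset.sum_const_zero]
  have hPΦ : ∀ x c, P (Φ (x, c)) = x := by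
    intro x c
    have : Φ (x, c) = A x + B c := rfl
    rw [this, map_add, hPA, hPB, add_zero]
  have hinj : Function.Injective Φ := by
    rw [injective_iff_map_eq_zero]
    rintro ⟨x, c⟩ h
    have hx : x = 0 := by rw [← hPΦ x c, h, map_zero]
    subst hx
    have hc : c = 0 := by
      funext j
      have h1 := hb c j
      have h2 : ∀ i, ∑ l, c l * b l i = 0 := by
        intro i
        have h3 := congrFun h i
        rw [hΦ] at h3
        simpa using h3
      simp only [h2, abs_zero, Finset.sum_const_zero] at h1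
      exact abs_eq_zero.1 (le_antisymm h1 (abs_nonneg _))
    rw [hc]
    rfl
  have hdim : Module.finrank ℝ ((Fin n → ℝ) × (Fin k → ℝ)) = Module.finrank ℝ (ι → ℝ) := by
    rw [Module.finrank_prod, Module.finrank_fintype_fun_eq_card, Module.finrank_fintype_fun_eq_card,
      Module.finrank_fintype_fun_eq_card, hcard, Fintype.card_fin, Fintype.card_fin]
  let e : ((Fin n → ℝ) × (Fin k → ℝ)) ≃ₗ[ℝ] (ι → ℝ) := LinearMap.linearEquivOfInjective Φ hinj hdim
  have he : ∀ y, e y = Φ y := fun y => LinearMap.linearEquivOfInjective_apply hinj hdim y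
  let E : ((Fin n → ℝ) × (Fin k → ℝ)) ≃L[ℝ] (ι → ℝ) := e.toContinuousLinearEquiv
  have hE : ∀ y, E y = Φ y := fun y => he y
  let μ0 : Measure ((Fin n → ℝ) × (Fin k → ℝ)) :=
    (volume : Measure (Fin n → ℝ)).prod (volume : Measure (Fin k → ℝ))
  have hμ0 : μ0.IsAddHaarMeasure := Measure.prod.instIsAddHaarMeasure _ _
  have hmap : (Measure.map E μ0).IsAddHaarMeasure := E.isAddHaarMeasure_map μ0
  obtain ⟨κ, h0, h1, h2⟩ : ∃ κ : ℝ≥0∞, κ ≠ 0 ∧ κ ≠ ∞ ∧
      (volume : Measure (ι → ℝ)) = κ • Measure.map E μ0 := by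
    refine ⟨(Measure.addHaarScalarFactor (volume : Measure (ι → ℝ)) (Measure.map E μ0) : ℝ≥0), ?_,
      ENNReal.coe_ne_top, ?_⟩
    · exact ENNReal.coe_ne_zero.2
        (Measure.addHaarScalarFactor_pos_of_isAddHaarMeasure _ _).ne'
    · exact Measure.isAddLeftInvariant_eq_smul _ _
  refine ⟨w, κ, h0, h1, ?_, ?_, ?_⟩
  · intro x c
    have h3 := hPΦ x c
    rw [hΦ, hPa] at h3
    exact h3
  · intro s
    obtain ⟨⟨x, c⟩, hs⟩ := e.surjective s
    rw [he] at hs
    refine ⟨c, fun i => ?_⟩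
    have hx : P s = x := by rw [← hs, hPΦ]
    rw [hPa] at hx
    rw [hx, ← hs, hΦ]
  · intro g hg
    rw [h2, lintegral_smul_measure, lintegral_map hg E.continuous.measurable, smul_eq_mul]
    congr 1
    have h3 : ∫⁻ a, g (E a) ∂μ0 = ∫⁻ x : Fin n → ℝ, ∫⁻ c : Fin k → ℝ, g (E (x, c)) :=
      lintegral_prod (fun a => g (E a)) (hg.comp E.continuous.measurable).aemeasurable
    rw [h3]
    refine lintegral_congr fun x => lintegral_congr fun c => ?_
    rw [hE, hΦ]

end Pool.Agent.MX
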