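import Pool.Agent.MX.Defs

/-!
# MX-ZFib: the fibres of an enlarged cube over a zonotope are large

`zono_isCompact`: `zono v` is the image of the compact cube under a continuous map.

`zono_fib`: write `Φ (x, c) i = ∑ m, x m * w m i + ∑ l, c l * b l i` and
`Qa = {s | ∀ i, |s i| ≤ 1 + ∑ l, |b l i|}`. By `hg` and `hw`
`∫⁻ s in Qa, g (∑ i, s i • v i) = κ * ∫⁻ x, ∫⁻ c, 1_{Qa} (Φ (x, c)) * g x
≥ κ * ∫⁻ x in zono v, g x * volume {c | Φ (x, c) ∈ Qa}`. For `x ∈ zono v`, `x = ∑ i, s i • v i` with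
`|s i| ≤ 1`; by `hs` there is `c₀` with `s = Φ (x, c₀)`. If `|c l - c₀ l| ≤ 1` for all `l` then
`Φ (x, c) i = s i + ∑ l, (c l - c₀ l) * b l i` has absolute value at most `1 + ∑ l, |b l i|`. So
`{c | Φ (x, c) ∈ Qa}` contains `Icc (c₀ - 1) (c₀ + 1)`, of volume `2 ^ k` (`Real.volume_Icc_pi`).

`cube_vol`: `{s | ∀ i, |s i| ≤ a i} = Icc (-a) a`.
-/

set_option autoImplicit false

open MeasureTheory Set
open scoped ENNReal NNReal

namespace Pool.Agent.MX

private theorem cont_comb {ι : Type} [Fintype ι] {n : ℕ} (v : ι → Fin n → ℝ) :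
    Continuous fun s : ι → ℝ => ∑ i, s i • v i :=
  continuous_finsetSum _ fun i _ => (continuous_apply i).smul continuous_const

private theorem cube_eq {ι : Type} [Fintype ι] (a : ι → ℝ) :
    {s : ι → ℝ | ∀ i, |s i| ≤ a i} = Icc (-a) a := by
  ext s
  constructor
  · intro h
    exact ⟨fun i => (abs_le.1 (h i)).1, fun i => (abs_le.1 (h i)).2⟩
  · intro h i
    exact abs_le.2 ⟨h.1 i, h.2 i⟩

theorem zono_isCompact {ι : Type} [Fintype ι] {n : ℕ} (v : ι → Fin n → ℝ) :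
    IsCompact (zono v) := by
  have h : zono v = (fun s : ι → ℝ => ∑ i, s i • v i) '' {s : ι → ℝ | ∀ i, |s i| ≤ 1} := by
    ext x
    constructor
    · rintro ⟨s, hs, hx⟩
      exact ⟨s, hs, hx.symm⟩
    · rintro ⟨s, hs, hx⟩
      exact ⟨s, hs, hx.symm⟩
  rw [h]
  refine IsCompact.image ?_ (cont_comb v)
  have h1 := cube_eq (fun _ : ι => (1 : ℝ))
  rw [h1]
  exact isCompact_Icc

theorem cube_vol {ι : Type} [Fintype ι] (a : ι → ℝ) :
    volume {s : ι → ℝ | ∀ i, |s i| ≤ a i} = ∏ i, ENNReal.ofReal (2 * a i) := by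
  rw [cube_eq, Real.volume_Icc_pi]
  refine Finset.prod_congr rfl fun i _ => ?_
  congr 1
  rw [Pi.neg_apply]
  ring

theorem zono_fib {ι : Type} [Fintype ι] {n k : ℕ} (v : ι → Fin n → ℝ) (b : Fin k → ι → ℝ)
    (w : Fin n → ι → ℝ) (κ : ℝ≥0∞)
    (hw : ∀ (x : Fin n → ℝ) (c : Fin k → ℝ),
      ∑ i, (∑ m, x m * w m i + ∑ l, c l * b l i) • v i = x)
    (hs : ∀ s : ι → ℝ, ∃ c : Fin k → ℝ, ∀ i,
      s i = ∑ m, (∑ i', s i' • v i') m * w m i + ∑ l, c l * b l i)
    (hg : ∀ g : (ι → ℝ) → ℝ≥0∞, Measurable g →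
      ∫⁻ s, g s = κ * ∫⁻ x : Fin n → ℝ, ∫⁻ c : Fin k → ℝ,
        g (fun i => ∑ m, x m * w m i + ∑ l, c l * b l i))
    (g : (Fin n → ℝ) → ℝ≥0∞) (hgm : Measurable g) :
    κ * 2 ^ k * ∫⁻ x in zono v, g x ≤
      ∫⁻ s in {s : ι → ℝ | ∀ i, |s i| ≤ 1 + ∑ l, |b l i|}, g (∑ i, s i • v i) := by
  set Q : Set (ι → ℝ) := {s : ι → ℝ | ∀ i, |s i| ≤ 1 + ∑ l, |b l i|} with hQdef
  have hQ : MeasurableSet Q := by
    rw [hQdef, cube_eq (fun i => 1 + ∑ l, |b l i|)]
    exact measurableSet_Icc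
  have hZ : MeasurableSet (zono v) := (zono_isCompact v).measurableSet
  have hG : Measurable fun s : ι → ℝ => g (∑ i, s i • v i) := hgm.comp (cont_comb v).measurable
  have hmem : ∀ x ∈ zono v, ∃ c₀ : Fin k → ℝ, ∀ c ∈ Icc (c₀ - 1) (c₀ + 1),
      (fun i => ∑ m, x m * w m i + ∑ l, c l * b l i) ∈ Q := by
    rintro x ⟨s, hs1, hx⟩
    obtain ⟨c₀, hc₀⟩ := hs s
    refine ⟨c₀, fun c hc i => ?_⟩
    have h1 : ∑ m, x m * w m i + ∑ l, c l * b l i = s i + ∑ l, (c l - c₀ l) * b l i := by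
      have h2 := hc₀ i
      rw [← hx] at h2
      rw [h2]
      have h3 : ∑ l, (c l - c₀ l) * b l i = ∑ l, c l * b l i - ∑ l, c₀ l * b l i := by
        rw [← Finset.sum_sub_distrib]
        exact Finset.sum_congr rfl fun l _ => by ring
      rw [h3]
      ring
    show |∑ m, x m * w m i + ∑ l, c l * b l i| ≤ 1 + ∑ l, |b l i|
    rw [h1]
    refine (abs_add_le _ _).trans (add_le_add (hs1 i) ?_)
    refine (Finset.abs_sum_le_sum_abs _ _).trans (Finset.sum_le_sum fun l _ => ?_)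
    rw [abs_mul]
    have h4 : |c l - c₀ l| ≤ 1 := by
      have h5 := hc.1 l
      have h6 := hc.2 l
      rw [Pi.sub_apply, Pi.one_apply] at h5
      rw [Pi.add_apply, Pi.one_apply] at h6
      rw [abs_le]
      constructor <;> linarith
    calc |c l - c₀ l| * |b l i| ≤ 1 * |b l i| := mul_le_mul_of_nonneg_right h4 (abs_nonneg _)
      _ = |b l i| := one_mul _
  have hinner : ∀ x : Fin n → ℝ, (zono v).indicator (fun x => 2 ^ k * g x) x ≤
      ∫⁻ c : Fin k → ℝ, Q.indicator (fun s => g (∑ i, s i • v i))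
        (fun i => ∑ m, x m * w m i + ∑ l, c l * b l i) := by
    intro x
    by_cases hx : x ∈ zono v
    · rw [indicator_of_mem hx]
      obtain ⟨c₀, hc₀⟩ := hmem x hx
      have hv : volume (Icc (c₀ - 1) (c₀ + 1)) = 2 ^ k := by
        rw [Real.volume_Icc_pi]
        have h1 : ∀ l : Fin k, ENNReal.ofReal ((c₀ + 1) l - (c₀ - 1) l) = 2 := by
          intro l
          rw [Pi.add_apply, Pi.sub_apply, Pi.one_apply]
          have h2 : c₀ l + 1 - (c₀ l - 1) = 2 := by ring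
          rw [h2]
          exact ENNReal.ofReal_ofNat 2
        rw [Finset.prod_congr rfl fun l _ => h1 l, Finset.prod_const, Finset.card_univ,
          Fintype.card_fin]
      calc (2 : ℝ≥0∞) ^ k * g x = g x * volume (Icc (c₀ - 1) (c₀ + 1)) := by
            rw [hv, mul_comm]
        _ = ∫⁻ c in Icc (c₀ - 1) (c₀ + 1), g x := by rw [setLIntegral_const]
        _ = ∫⁻ c, (Icc (c₀ - 1) (c₀ + 1)).indicator (fun _ => g x) c := by
            rw [lintegral_indicator measurableSet_Icc]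
        _ ≤ _ := by
            refine lintegral_mono fun c => ?_
            by_cases hc : c ∈ Icc (c₀ - 1) (c₀ + 1)
            · rw [indicator_of_mem hc, indicator_of_mem (hc₀ c hc)]
              show g x ≤ g (∑ i, (∑ m, x m * w m i + ∑ l, c l * b l i) • v i)
              rw [hw]
            · rw [indicator_of_notMem hc]
              exact zero_le
    · rw [indicator_of_notMem hx]
      exact zero_le
  calc κ * 2 ^ k * ∫⁻ x in zono v, g x
      = κ * ∫⁻ x, (zono v).indicator (fun x => 2 ^ k * g x) x := by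
        rw [lintegral_indicator hZ, lintegral_const_mul _ hgm, mul_assoc]
    _ ≤ κ * ∫⁻ x : Fin n → ℝ, ∫⁻ c : Fin k → ℝ, Q.indicator (fun s => g (∑ i, s i • v i))
        (fun i => ∑ m, x m * w m i + ∑ l, c l * b l i) := by
        gcongr with x
        exact hinner x
    _ = ∫⁻ s, Q.indicator (fun s => g (∑ i, s i • v i)) s := (hg _ (hG.indicator hQ)).symm
    _ = ∫⁻ s in Q, g (∑ i, s i • v i) := lintegral_indicator hQ _

end Pool.Agent.MX
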