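import Pool.Agent.MX.Defs
import Pool.Agent.MX.Fib

/-!
# MX-ZVol: lower bound for the volume of a zonotope

Write `Φ (x, c) i = ∑ m, x m * w m i + ∑ l, c l * b l i`, `Q = cube ι`, `N = card ι`,
`h x = volume {c | Φ (x, c) ∈ Q} = ∫⁻ c, 1_Q (Φ (x, c))`, `z c i = ∑ l, c l * b l i`.
* `h x = 0` for `x ∉ zono v` (by `hw`: `s = Φ (x, c) ∈ Q` gives `x = ∑ s i • v i`).
* `2 ^ N = volume Q = κ * ∫⁻ h = κ * ∫⁻ x in zono v, h x` (`hg`).
* Cauchy-Schwarz (`ENNReal.lintegral_mul_le_Lp_mul_Lq` with exponents `2, 2` and the constant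
  function `1`, for the measure `volume.restrict (zono v)`; `zono v` is compact, hence measurable):
  `(∫⁻ x in zono v, h x) ^ 2 ≤ volume (zono v) * ∫⁻ x, h x ^ 2`.
* `κ * ∫⁻ h ^ 2 = κ * ∫⁻ x, ∫⁻ c, ∫⁻ c', 1_Q (Φ (x, c)) * 1_Q (Φ (x, c'))
  = κ * ∫⁻ x, ∫⁻ c, ∫⁻ e, 1_Q (Φ (x, c)) * 1_Q (Φ (x, c) + z e)` (translation `c' = c + e`,
  `lintegral_add_left_eq_self`) `= ∫⁻ e, ∫⁻ s, 1_Q s * 1_Q (s + z e)` (Tonelli and `hg`)
  `= ∫⁻ e, ∏ i, ofReal (2 - |z e i|) ≤ 2 ^ N * (4 k) ^ k` (`slab`, `fib_int`).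
* So `4 ^ N ≤ κ ^ 2 * volume (zono v) * ∫⁻ h ^ 2 ≤ κ * volume (zono v) * 2 ^ N * (4 k) ^ k`; divide
  by `2 ^ N`.
-/

set_option autoImplicit false

open MeasureTheory Set
open scoped ENNReal NNReal

namespace Pool.Agent.MX

theorem zono_vol {ι : Type} [Fintype ι] {n k : ℕ} (v : ι → Fin n → ℝ) (b : Fin k → ι → ℝ)
    (hb : ∀ c : Fin k → ℝ, ∀ j, |c j| ≤ ∑ i, |∑ l, c l * b l i|)
    (w : Fin n → ι → ℝ) (κ : ℝ≥0∞) (hκ0 : κ ≠ 0) (hκ1 : κ ≠ ∞)
    (hw : ∀ (x : Fin n → ℝ) (c : Fin k → ℝ),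
      ∑ i, (∑ m, x m * w m i + ∑ l, c l * b l i) • v i = x)
    (hg : ∀ g : (ι → ℝ) → ℝ≥0∞, Measurable g →
      ∫⁻ s, g s = κ * ∫⁻ x : Fin n → ℝ, ∫⁻ c : Fin k → ℝ,
        g (fun i => ∑ m, x m * w m i + ∑ l, c l * b l i)) :
    2 ^ Fintype.card ι ≤ κ * volume (zono v) * (4 * (k : ℝ≥0∞)) ^ k := by
  classical
  set Q : Set (ι → ℝ) := {s | ∀ i, |s i| ≤ 1} with hQ
  have hQm : MeasurableSet Q := by
    have : IsClosed Q := by
      rw [hQ, Set.ofPred_forall]
      exact isClosed_iInter fun i => isClosed_le (by fun_prop) continuous_const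
    exact this.measurableSet
  set q : (ι → ℝ) → ℝ≥0∞ := Q.indicator 1 with hq
  have hqm : Measurable q := measurable_one.indicator hQm
  set L : (Fin n → ℝ) → (Fin k → ℝ) → ι → ℝ :=
    fun x c i => ∑ m, x m * w m i + ∑ l, c l * b l i with hL
  set z : (Fin k → ℝ) → ι → ℝ := fun c i => ∑ l, c l * b l i with hz
  have hLm : Measurable fun p : (Fin n → ℝ) × (Fin k → ℝ) => L p.1 p.2 := by
    refine Continuous.measurable ?_
    simp only [hL]
    fun_prop
  have hzm : Measurable z := by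
    refine Continuous.measurable ?_
    simp only [hz]
    fun_prop
  have hLadd : ∀ x c e, L x (c + e) = L x c + z e := by
    intro x c e
    funext i
    simp only [hL, hz, Pi.add_apply, add_mul, Finset.sum_add_distrib]
    ring
  set h : (Fin n → ℝ) → ℝ≥0∞ := fun x => ∫⁻ c, q (L x c) with hh
  have hhm : Measurable h := Measurable.lintegral_prod_right' (f := fun p => q (L p.1 p.2))
    (hqm.comp hLm)
  -- support
  have hsupp : {x | h x ≠ 0} ⊆ zono v := by
    intro x hx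
    by_contra hxz
    apply hx
    have h0 : ∀ c, q (L x c) = 0 := by
      intro c
      rw [hq, Set.indicator_of_notMem]
      intro hc
      exact hxz ⟨L x c, hc, (hw x c).symm⟩
    simp only [hh, h0, lintegral_zero]
  -- volume of the cube
  have hvol : ∫⁻ s, q s = 2 ^ Fintype.card ι := by
    rw [hq, lintegral_indicator_one hQm]
    have h1 := slab (ι := ι) 0
    simp only [Pi.zero_apply, add_zero, abs_zero, sub_zero, Finset.prod_const,
      Finset.card_univ, and_self] at h1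
    rw [hQ, h1]
    norm_num
  have hA : 2 ^ Fintype.card ι = κ * ∫⁻ x, h x := by
    rw [← hvol]
    exact hg q hqm
  -- Cauchy-Schwarz
  have hS : MeasurableSet {x | h x ≠ 0} := hhm (measurableSet_singleton 0).compl
  have hCS : (∫⁻ x, h x) ^ 2 ≤ (∫⁻ x, h x * h x) * volume (zono v) := by
    have h1 := ENNReal.lintegral_mul_le_Lp_mul_Lq (volume : Measure (Fin n → ℝ))
      Real.HolderConjugate.two_two hhm.aemeasurable
      (g := ({x | h x ≠ 0} : Set (Fin n → ℝ)).indicator 1)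
      ((measurable_one.indicator hS).aemeasurable)
    have h2 : ∀ x, (h * ({x | h x ≠ 0} : Set (Fin n → ℝ)).indicator
        (1 : (Fin n → ℝ) → ℝ≥0∞)) x = h x := by
      intro x
      rw [Pi.mul_apply]
      by_cases hx : h x = 0
      · rw [hx, zero_mul]
      · rw [Set.indicator_of_mem (show x ∈ {x | h x ≠ 0} from hx), Pi.one_apply, mul_one]
    have h3 : ∫⁻ x, (({x | h x ≠ 0} : Set (Fin n → ℝ)).indicator (1 : (Fin n → ℝ) → ℝ≥0∞) x) ^ (2 : ℝ)
        ≤ volume (zono v) := by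
      have h4 : ∀ x, (({x | h x ≠ 0} : Set (Fin n → ℝ)).indicator (1 : (Fin n → ℝ) → ℝ≥0∞) x) ^ (2 : ℝ)
          = ({x | h x ≠ 0} : Set (Fin n → ℝ)).indicator (1 : (Fin n → ℝ) → ℝ≥0∞) x := by
        intro x
        by_cases hx : x ∈ {x | h x ≠ 0}
        · rw [Set.indicator_of_mem hx, Pi.one_apply, ENNReal.one_rpow]
        · rw [Set.indicator_of_notMem hx, ENNReal.zero_rpow_of_pos (by norm_num)]
      simp_rw [h4]
      rw [lintegral_indicator_one hS]
      exact measure_mono hsupp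
    simp_rw [h2] at h1
    have h5 : ∀ x, h x ^ (2 : ℝ) = h x * h x := fun x => by
      rw [ENNReal.rpow_two, sq]
    simp_rw [h5] at h1
    calc (∫⁻ x, h x) ^ 2 ≤ ((∫⁻ x, h x * h x) ^ (1 / (2 : ℝ)) *
          (∫⁻ x, (({x | h x ≠ 0} : Set (Fin n → ℝ)).indicator (1 : (Fin n → ℝ) → ℝ≥0∞) x) ^ (2 : ℝ)) ^
            (1 / (2 : ℝ))) ^ 2 := by gcongr
      _ = (∫⁻ x, h x * h x) *
          (∫⁻ x, (({x | h x ≠ 0} : Set (Fin n → ℝ)).indicator (1 : (Fin n → ℝ) → ℝ≥0∞) x) ^ (2 : ℝ)) := by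
          rw [mul_pow, ← ENNReal.rpow_natCast, ← ENNReal.rpow_natCast, ← ENNReal.rpow_mul,
            ← ENNReal.rpow_mul]
          norm_num
      _ ≤ _ := by gcongr
  -- second moment
  have hB : κ * ∫⁻ x, h x * h x ≤ 2 ^ Fintype.card ι * (4 * (k : ℝ≥0∞)) ^ k := by
    have hFm : Measurable fun r : ((Fin n → ℝ) × (Fin k → ℝ)) × (Fin k → ℝ) =>
        q (L r.1.1 r.1.2) * q (L r.1.1 r.1.2 + z r.2) := by
      refine (hqm.comp (hLm.comp measurable_fst)).mul (hqm.comp ?_)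
      exact (hLm.comp measurable_fst).add (hzm.comp measurable_snd)
    have e1 : ∀ x, h x * h x = ∫⁻ c, ∫⁻ e, q (L x c) * q (L x c + z e) := by
      intro x
      have hm1 : Measurable fun c => q (L x c) := hqm.comp (hLm.comp measurable_prodMk_left)
      have e2 : ∀ c, ∫⁻ e, q (L x c) * q (L x c + z e) = q (L x c) * h x := by
        intro c
        rw [lintegral_const_mul]
        · congr 1
          rw [hh]
          simp only
          rw [← lintegral_add_left_eq_self (fun c' => q (L x c')) c]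
          simp only [hLadd]
        · exact hqm.comp (measurable_const.add hzm)
      simp_rw [e2]
      rw [lintegral_mul_const _ hm1]
    have e3 : ∫⁻ x, h x * h x = ∫⁻ e, ∫⁻ x, ∫⁻ c, q (L x c) * q (L x c + z e) := by
      simp_rw [e1]
      have e4 : ∫⁻ x, ∫⁻ c, ∫⁻ e, q (L x c) * q (L x c + z e) =
          ∫⁻ p : (Fin n → ℝ) × (Fin k → ℝ), ∫⁻ e, q (L p.1 p.2) * q (L p.1 p.2 + z e) := by
        rw [Measure.volume_eq_prod, lintegral_prod]
        exact (Measurable.lintegral_prod_right' hFm).aemeasurable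
      rw [e4, lintegral_lintegral_swap hFm.aemeasurable]
      refine lintegral_congr fun e => ?_
      rw [Measure.volume_eq_prod, lintegral_prod]
      exact (hFm.comp (measurable_id.prodMk measurable_const)).aemeasurable
    rw [e3, ← lintegral_const_mul' _ _ hκ1]
    have e5 : ∀ e, κ * ∫⁻ x, ∫⁻ c, q (L x c) * q (L x c + z e) =
        ∏ i, ENNReal.ofReal (2 - |z e i|) := by
      intro e
      have h6 := hg (fun s => q s * q (s + z e))
        (hqm.mul (hqm.comp (measurable_id.add measurable_const)))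
      rw [← slab (z e)]
      refine h6.symm.trans ?_
      have h7 : ∀ s, q s * q (s + z e) =
          ({s : ι → ℝ | (∀ i, |s i| ≤ 1) ∧ ∀ i, |s i + z e i| ≤ 1} : Set (ι → ℝ)).indicator 1 s := by
        intro s
        simp only [hq, hQ, Set.indicator_apply, Set.mem_ofPred_eq, Pi.add_apply, Pi.one_apply]
        by_cases ha : ∀ i, |s i| ≤ 1 <;> by_cases hb' : ∀ i, |s i + z e i| ≤ 1 <;> simp [ha, hb']
      simp_rw [h7]
      rw [lintegral_indicator_one]
      have hm2 : MeasurableSet ((fun s : ι → ℝ => s + z e) ⁻¹' Q) :=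
        (measurable_id.add measurable_const) hQm
      exact hQm.inter hm2
    simp_rw [e5]
    exact fib_int b hb
  -- conclusion
  set N := Fintype.card ι
  have h2N0 : (2 : ℝ≥0∞) ^ N ≠ 0 := pow_ne_zero _ (by norm_num)
  have h2N1 : (2 : ℝ≥0∞) ^ N ≠ ∞ := ENNReal.pow_ne_top (by norm_num)
  have hfin : (2 : ℝ≥0∞) ^ N * 2 ^ N ≤ (κ * volume (zono v) * (4 * (k : ℝ≥0∞)) ^ k) * 2 ^ N := by
    calc (2 : ℝ≥0∞) ^ N * 2 ^ N = κ * κ * (∫⁻ x, h x) ^ 2 := by
          nth_rewrite 1 [hA]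
          nth_rewrite 1 [hA]
          ring
      _ ≤ κ * κ * ((∫⁻ x, h x * h x) * volume (zono v)) := by gcongr
      _ = κ * volume (zono v) * (κ * ∫⁻ x, h x * h x) := by ring
      _ ≤ κ * volume (zono v) * (2 ^ N * (4 * (k : ℝ≥0∞)) ^ k) := by gcongr
      _ = _ := by ring
  exact (ENNReal.mul_le_mul_iff_left h2N0 h2N1).1 hfin

end Pool.Agent.MX
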