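import Pool.Agent.MX.Basic
import Pool.Agent.MX.Auerb
import Pool.Agent.MX.Fub
import Pool.Agent.MX.ZVol
import Pool.Agent.MX.ZFib

/-!
# MX-ZDom: the uniform measure of a zonotope with few extra generators is dominated by the image
of the uniform measure of the cube

Take `b` from `auerbach` for `W = ker (Fintype.linearCombination ℝ v)` (`finrank_ker`), then `w, κ`
from `exists_kappa`; `a i = 1 + ∑ l, |b l i|`, `N = card ι`, `Z = zono v`,
`Qa = {s | ∀ i, |s i| ≤ a i}`.
* `∑ i, ∑ l, |b l i| ≤ k`, so `volume Qa = 2 ^ N * ∏ a i ≤ 2 ^ N * exp k`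
  (`Real.add_one_le_exp`, `Real.exp_sum`).
* For a measurable set `A` (`Measure.le_iff`), with `g = indicator A 1`:
  `unif Z A = (volume Z)⁻¹ * ∫⁻ x in Z, g x`, and by `zono_fib`, `zono_vol` (`κ, volume Z` are
  non-zero and finite, `κ⁻¹ * (volume Z)⁻¹ ≤ 2⁻ᴺ * (4 k) ^ k`)
  `unif Z A ≤ (volume Z)⁻¹ * κ⁻¹ * 2⁻ᵏ * ∫⁻ s in Qa, g (∑ i, s i • v i)
  ≤ (2 k) ^ k * 2⁻ᴺ * ∫⁻ s in Qa, g (∑ i, s i • v i)`.
* The scaling `s ↦ (a i * s i)` maps `Q = cube ι` onto `Qa` and the volume to `∏ a i` times it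
  (`Real.map_matrix_volume_pi_eq_smul_volume_pi` for a diagonal matrix, or
  `Real.smul_map_diagonal_volume_pi`), so
  `∫⁻ s in Qa, g (∑ s i • v i) = (∏ a i) * ∫⁻ s in Q, g (∑ (a i * s i) • v i)
  = (∏ a i) * 2 ^ N * ∫⁻ s, g (∑ (a i * s i) • v i) ∂(unif Q)`.
  Together: `unif Z A ≤ (2 k) ^ k * exp k * (map (unif Q)) A`, and
  `(2 k) ^ k * exp k = (2 * exp 1 * k) ^ k`.
-/

set_option autoImplicit false

open MeasureTheory Set
open scoped ENNReal NNReal

namespace Pool.Agent.MX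

/-- change of variables by a diagonal matrix -/
private theorem scale {ι : Type} [Fintype ι] (a : ι → ℝ) (ha : ∀ i, 0 < a i)
    (G : (ι → ℝ) → ℝ≥0∞) (hG : Measurable G) :
    ∫⁻ s in {s : ι → ℝ | ∀ i, |s i| ≤ a i}, G s =
      ENNReal.ofReal (∏ i, a i) * ∫⁻ s in cube ι, G (fun i => a i * s i) := by
  classical
  have hdet : (Matrix.diagonal a).det ≠ 0 := by
    rw [Matrix.det_diagonal]
    exact (Finset.prod_pos fun i _ => ha i).ne'
  have hab : |(Matrix.diagonal a).det| = ∏ i, a i := by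
    rw [Matrix.det_diagonal, abs_of_pos (Finset.prod_pos fun i _ => ha i)]
  have hmap := Real.smul_map_diagonal_volume_pi hdet
  rw [hab] at hmap
  have hset : MeasurableSet {s : ι → ℝ | ∀ i, |s i| ≤ a i} := by
    have : {s : ι → ℝ | ∀ i, |s i| ≤ a i} = ⋂ i, {s : ι → ℝ | |s i| ≤ a i} := by
      ext s; simp
    rw [this]
    refine MeasurableSet.iInter fun i => ?_
    exact measurableSet_le ((measurable_pi_apply i).abs) measurable_const
  have hset' : MeasurableSet (cube ι) := by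
    have : cube ι = ⋂ i, {s : ι → ℝ | |s i| ≤ 1} := by
      ext s; simp [cube]
    rw [this]
    refine MeasurableSet.iInter fun i => ?_
    exact measurableSet_le ((measurable_pi_apply i).abs) measurable_const
  have hDm : Measurable (Matrix.toLin' (Matrix.diagonal a)) :=
    (LinearMap.continuous_of_finiteDimensional _).measurable
  rw [← lintegral_indicator hset, ← lintegral_indicator hset']
  conv_lhs => rw [← hmap]
  rw [lintegral_smul_measure, lintegral_map (hG.indicator hset) hDm, smul_eq_mul]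
  congr 1
  refine lintegral_congr fun s => ?_
  have hD : Matrix.toLin' (Matrix.diagonal a) s = fun i => a i * s i := by
    ext i
    rw [Matrix.toLin'_apply, Matrix.mulVec_diagonal]
  rw [hD]
  have hiff : (fun i => a i * s i) ∈ {s : ι → ℝ | ∀ i, |s i| ≤ a i} ↔ s ∈ cube ι := by
    change (∀ i, |a i * s i| ≤ a i) ↔ ∀ i, |s i| ≤ 1
    refine forall_congr' fun i => ?_
    rw [abs_mul, abs_of_pos (ha i)]
    constructor
    · intro h
      have := ha i
      by_contra hc
      rw [not_le] at hc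
      nlinarith
    · intro h
      have := ha i
      nlinarith
  by_cases hs : s ∈ cube ι
  · rw [indicator_of_mem hs, indicator_of_mem (hiff.2 hs)]
  · rw [indicator_of_notMem hs, indicator_of_notMem (fun h => hs (hiff.1 h))]

theorem zono_dom {ι : Type} [Fintype ι] {n k : ℕ} (v : ι → Fin n → ℝ)
    (hcard : Fintype.card ι = n + k) (hv : Submodule.span ℝ (Set.range v) = ⊤) :
    volume (zono v) ≠ 0 ∧ ∃ a : ι → ℝ, (∀ i, 0 < a i) ∧
      unif (zono v) ≤ ((Real.toNNReal ((2 * Real.exp 1 * k) ^ k) : ℝ≥0) : ℝ≥0∞) •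
        (unif (cube ι)).map (fun s => ∑ i, (a i * s i) • v i) := by
  classical
  obtain ⟨b, hbW, hbsum, hb⟩ := auerbach (LinearMap.ker (Fintype.linearCombination ℝ v))
    (finrank_ker v hcard hv)
  have hbker : ∀ l, ∑ i, b l i • v i = 0 := by
    intro l
    have := hbW l
    rw [LinearMap.mem_ker, Fintype.linearCombination_apply] at this
    exact this
  obtain ⟨w, κ, hκ0, hκ1, hw, hs, hg⟩ := exists_kappa v hcard hv b hbker hb
  have hvol := zono_vol v b hb w κ hκ0 hκ1 hw hg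
  have hV0 : volume (zono v) ≠ 0 := by
    intro h0
    rw [h0, mul_zero, zero_mul, nonpos_iff_eq_zero] at hvol
    exact (pow_ne_zero _ (by norm_num)) hvol
  have hVt : volume (zono v) ≠ ∞ := (zono_isCompact v).measure_lt_top.ne
  have ha : ∀ i, 0 < 1 + ∑ l, |b l i| := fun i =>
    add_pos_of_pos_of_nonneg one_pos (Finset.sum_nonneg fun l _ => abs_nonneg _)
  obtain ⟨a, hadef⟩ : ∃ a : ι → ℝ, ∀ i, a i = 1 + ∑ l, |b l i| := ⟨_, fun _ => rfl⟩
  have hfib := zono_fib v b w κ hw hs hg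
  have hprod : ∏ i, (1 + ∑ l, |b l i|) ≤ Real.exp k := by
    calc ∏ i, (1 + ∑ l, |b l i|) ≤ ∏ i, Real.exp (∑ l, |b l i|) := by
          refine Finset.prod_le_prod (fun i _ => (ha i).le) fun i _ => ?_
          rw [add_comm]
          exact Real.add_one_le_exp _
      _ = Real.exp (∑ i, ∑ l, |b l i|) := (Real.exp_sum _ _).symm
      _ ≤ Real.exp k := by
          refine Real.exp_le_exp.2 ?_
          rw [Finset.sum_comm]
          calc ∑ l, ∑ i, |b l i| ≤ ∑ _l : Fin k, (1 : ℝ) := Finset.sum_le_sum fun l _ => hbsum l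
            _ = k := by simp
  simp only [← hadef] at ha hfib hprod
  have hsc := scale a ha
  refine ⟨hV0, a, ha, ?_⟩
  have hset' : MeasurableSet (cube ι) := by
    have : cube ι = ⋂ i, {s : ι → ℝ | |s i| ≤ 1} := by
      ext s; simp [cube]
    rw [this]
    refine MeasurableSet.iInter fun i => ?_
    exact measurableSet_le ((measurable_pi_apply i).abs) measurable_const
  have hP : Measurable fun s : ι → ℝ => ∑ i, s i • v i := by
    refine Finset.measurable_sum _ fun i _ => ?_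
    exact (measurable_pi_apply i).smul_const (v i)
  have hPD : Measurable fun s : ι → ℝ => ∑ i, (a i * s i) • v i := by
    refine Finset.measurable_sum _ fun i _ => ?_
    have hmi : Measurable fun s : ι → ℝ => s i := measurable_pi_apply i
    exact (hmi.const_mul (a i)).smul_const (v i)
  have hQvol : volume (cube ι) = 2 ^ Fintype.card ι := by
    have h1 := cube_vol (fun _ : ι => (1 : ℝ))
    have h2 : cube ι = {s : ι → ℝ | ∀ i, |s i| ≤ 1} := rfl
    rw [h2, h1]
    simp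
  rw [Measure.le_iff]
  intro A hA
  have hgA : Measurable (A.indicator (fun _ : Fin n → ℝ => (1 : ℝ≥0∞))) :=
    measurable_const.indicator hA
  -- left side
  have hleft : unif (zono v) A = (volume (zono v))⁻¹ *
      ∫⁻ x in zono v, A.indicator (fun _ => (1 : ℝ≥0∞)) x := by
    unfold unif
    rw [Measure.smul_apply, smul_eq_mul, ← lintegral_indicator_one hA]
    rfl
  have hright : ((unif (cube ι)).map (fun s => ∑ i, (a i * s i) • v i)) A =
      (2 ^ Fintype.card ι)⁻¹ *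
      ∫⁻ s in cube ι, A.indicator (fun _ => (1 : ℝ≥0∞)) (∑ i, (a i * s i) • v i) := by
    rw [← lintegral_indicator_one hA, lintegral_map (measurable_one.indicator hA) hPD]
    unfold unif
    rw [lintegral_smul_measure, smul_eq_mul, hQvol]
    rfl
  rw [Measure.smul_apply, smul_eq_mul, hright, hleft]
  have h1 := hfib _ hgA
  have h1' := hsc _ (hgA.comp hP)
  simp only [Function.comp_apply] at h1'
  rw [h1'] at h1
  generalize (∫⁻ x in zono v, A.indicator (fun _ => (1 : ℝ≥0∞)) x) = I at h1 ⊢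
  generalize (∫⁻ s in cube ι, A.indicator (fun _ => (1 : ℝ≥0∞)) (∑ i, (a i * s i) • v i)) = J
    at h1 ⊢
  generalize volume (zono v) = V at hvol hV0 hVt ⊢
  have hN0 : (2 : ℝ≥0∞) ^ Fintype.card ι ≠ 0 := pow_ne_zero _ (by norm_num)
  have hNt : (2 : ℝ≥0∞) ^ Fintype.card ι ≠ ∞ := ENNReal.pow_ne_top (by norm_num)
  -- the constant
  have hD : ((Real.toNNReal ((2 * Real.exp 1 * k) ^ k) : ℝ≥0) : ℝ≥0∞) =
      (2 * (k : ℝ≥0∞)) ^ k * ENNReal.ofReal (Real.exp k) := by
    change ENNReal.ofReal _ = _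
    rw [show (2 * Real.exp 1 * k) ^ k = ((2 * k : ℕ) : ℝ) ^ k * Real.exp k by
      have : Real.exp (k : ℝ) = Real.exp 1 ^ k := by rw [← Real.exp_nat_mul, mul_one]
      rw [this, ← mul_pow]
      push_cast
      ring_nf]
    rw [ENNReal.ofReal_mul (by positivity), ENNReal.ofReal_pow (by positivity),
      ENNReal.ofReal_natCast]
    push_cast
    rfl
  have hPle : ENNReal.ofReal (∏ i, a i) ≤ ENNReal.ofReal (Real.exp k) :=
    ENNReal.ofReal_le_ofReal hprod
  have hc0 : κ * 2 ^ k ≠ 0 := mul_ne_zero hκ0 (pow_ne_zero _ (by norm_num))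
  have hct : κ * 2 ^ k ≠ ∞ := ENNReal.mul_ne_top hκ1 (ENNReal.pow_ne_top (by norm_num))
  have h2 : κ * 2 ^ k * I ≤ κ * 2 ^ k * (V * ((2 * (k : ℝ≥0∞)) ^ k *
      ENNReal.ofReal (Real.exp k) * ((2 ^ Fintype.card ι)⁻¹ * J))) := by
    calc κ * 2 ^ k * I ≤ ENNReal.ofReal (∏ i, a i) * J := h1
      _ ≤ ENNReal.ofReal (Real.exp k) * J := mul_le_mul_left hPle J
      _ = ENNReal.ofReal (Real.exp k) * (2 ^ Fintype.card ι * ((2 ^ Fintype.card ι)⁻¹ * J)) := by
          rw [← mul_assoc (2 ^ Fintype.card ι), ENNReal.mul_inv_cancel hN0 hNt, one_mul]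
      _ ≤ ENNReal.ofReal (Real.exp k) * (κ * V * (4 * (k : ℝ≥0∞)) ^ k *
          ((2 ^ Fintype.card ι)⁻¹ * J)) :=
          mul_le_mul_right (mul_le_mul_left hvol _) _
      _ = κ * 2 ^ k * (V * ((2 * (k : ℝ≥0∞)) ^ k *
      ENNReal.ofReal (Real.exp k) * ((2 ^ Fintype.card ι)⁻¹ * J))) := by
          have e4 : (4 * (k : ℝ≥0∞)) ^ k = 2 ^ k * (2 * (k : ℝ≥0∞)) ^ k := by
            rw [← mul_pow, ← mul_assoc]; norm_num
          rw [e4]; ring
  rw [ENNReal.mul_le_mul_iff_right hc0 hct] at h2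
  rw [hD]
  calc V⁻¹ * I ≤ V⁻¹ * (V * ((2 * (k : ℝ≥0∞)) ^ k *
      ENNReal.ofReal (Real.exp k) * ((2 ^ Fintype.card ι)⁻¹ * J))) := mul_le_mul_right h2 _
    _ = _ := by rw [← mul_assoc, ENNReal.inv_mul_cancel hV0 hVt, one_mul]

end Pool.Agent.MX
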