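import Pool.Agent.MX.Conv1
import Pool.Agent.MX.Conv2
import Pool.Agent.MX.Push
import Pool.Agent.MX.ZDom

/-!
# MX-FinA: the maximal operator of a zonotope with few extra generators
-/

set_option autoImplicit false

open MeasureTheory Set
open scoped Pointwise ENNReal NNReal

namespace Pool.Agent.MX

theorem zono_bdd {n k : ℕ} (v : Fin (n + k) → Fin n → ℝ)
    (hv : Submodule.span ℝ (Set.range v) = ⊤) {p : ℝ} (hp : 1 < p) (C : ℝ≥0∞)
    (h : Bdd p C (cube (Fin (n + k)))) :
    Bdd p (ENNReal.ofReal ((2 * Real.exp 1 * k) ^ k) * C) (zono v) := by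
  have hp0 : 0 < p := by linarith
  obtain ⟨hZ, a, ha, hdom⟩ := zono_dom v (k := k) (by simp) hv
  have hcubeV : volume (cube (Fin (n + k))) = ∏ _i : Fin (n + k), ENNReal.ofReal (2 * 1) :=
    cube_vol (fun _ => (1 : ℝ))
  have hcube1 : volume (cube (Fin (n + k))) ≠ ∞ := by
    rw [hcubeV]; exact ENNReal.prod_ne_top fun _ _ => ENNReal.ofReal_ne_top
  have hcube0 : volume (cube (Fin (n + k))) ≠ 0 := by
    rw [hcubeV]
    exact Finset.prod_ne_zero_iff.2 fun _ _ => by simp
  have h1 : BddF p C (unif (cube (Fin (n + k)))) := bddF_of_bdd hp0 hcube1 h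
  haveI : IsFiniteMeasure (unif (cube (Fin (n + k)))) := by
    constructor
    simp only [unif, Measure.smul_apply, Measure.restrict_apply MeasurableSet.univ, univ_inter,
      smul_eq_mul]
    rw [ENNReal.inv_mul_cancel hcube0 hcube1]
    exact ENNReal.one_lt_top
  let T : (Fin (n + k) → ℝ) →ₗ[ℝ] (Fin n → ℝ) :=
    { toFun := fun s => ∑ i, (a i * s i) • v i
      map_add' := fun s s' => by
        simp only [Pi.add_apply, mul_add, add_smul, Finset.sum_add_distrib]
      map_smul' := fun c s => by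
        simp only [Pi.smul_apply, smul_eq_mul, RingHom.id_apply, Finset.smul_sum, smul_smul]
        refine Finset.sum_congr rfl fun i _ => ?_
        congr 1; ring }
  have hR : unif (cube (Fin (n + k))) {y | (1 : ℝ) < ‖y‖} = 0 := by
    have hm : MeasurableSet {y : Fin (n + k) → ℝ | (1 : ℝ) < ‖y‖} :=
      measurableSet_lt measurable_const measurable_norm
    simp only [unif, Measure.smul_apply, Measure.restrict_apply hm, smul_eq_mul]
    have : {y : Fin (n + k) → ℝ | (1 : ℝ) < ‖y‖} ∩ cube (Fin (n + k)) = ∅ := by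
      ext y
      simp only [mem_inter_iff, mem_setOf_eq, cube, mem_empty_iff_false, iff_false, not_and]
      intro h1 h2
      exact absurd ((pi_norm_le_iff_of_nonneg zero_le_one).2 h2) (not_le.2 h1)
    rw [this]; simp
  have h2 : BddF p C ((unif (cube (Fin (n + k)))).map T) := bddF_map T hp0 hR h1
  have h3 := BddF.of_le hp0.le hdom h2
  refine bdd_of_bddF hp0 hZ (zono_isCompact v).measure_lt_top.ne ?_ h3
  rintro y ⟨s, hs, rfl⟩ r hr0 hr1
  refine ⟨fun i => r * s i, fun i => ?_, ?_⟩
  · rw [abs_mul, abs_of_nonneg hr0]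
    exact mul_le_one₀ hr1 (abs_nonneg _) (hs i)
  · rw [Finset.smul_sum]
    exact Finset.sum_congr rfl fun i _ => by rw [smul_smul]

end Pool.Agent.MX
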