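import Pool.Agent.MX.Prod

/-!
# MX-PiM: finite products of measures, uniform measures on boxes

* `bddF_pi`: induction on `k`, using `bddF_prod`, `bddF_congr` (for the inverse of the equivalence)
  and `measurePreserving_piFinSuccAbove` (`MeasurableEquiv.piFinSuccAbove E 0`, both for the
  volumes and for `Measure.pi μ`). For `k = 0` the space is one point: `mx μ S f x ≤ f x` since
  `Measure.pi μ` is the Dirac measure (`Measure.pi_of_empty`), the empty product is `1`.
* `unif_pi`: both sides are equal to `c • (volume.restrict (univ.pi A))` with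
  `c = ∏ i, (volume (A i))⁻¹`: `Measure.pi_eq` on rectangles, `volume_pi_pi`,
  `Measure.restrict_pi_pi`, `ENNReal.inv_prod..` or `Finset.prod_inv_distrib`-like facts (all
  the volumes are finite and non-zero).
-/

set_option autoImplicit false

open MeasureTheory Set
open scoped Pointwise ENNReal NNReal

namespace Pool.Agent.MX

private theorem inv_prod' {ι : Type} (s : Finset ι) (a : ι → ℝ≥0∞) (h0 : ∀ i, a i ≠ 0) (h1 : ∀ i, a i ≠ ∞) :
    (∏ i ∈ s, a i)⁻¹ = ∏ i ∈ s, (a i)⁻¹ := by
  classical
  induction s using Finset.induction_on with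
  | empty => simp
  | insert i s hi ih =>
    rw [Finset.prod_insert hi, Finset.prod_insert hi, ← ih, ENNReal.mul_inv (Or.inl (h0 i)) (Or.inl (h1 i))]

private theorem mad_prod (E F : Type) [AddCommGroup E] [MeasurableSpace E] [MeasurableAdd₂ E] [AddCommGroup F]
    [MeasurableSpace F] [MeasurableAdd₂ F] : MeasurableAdd₂ (E × F) :=
  ⟨Measurable.prodMk (measurable_fst.fst.add measurable_snd.fst) (measurable_fst.snd.add measurable_snd.snd)⟩

private theorem mad_pi {ι : Type} (E : ι → Type) [∀ i, AddCommGroup (E i)] [∀ i, MeasurableSpace (E i)]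
    [∀ i, MeasurableAdd₂ (E i)] : MeasurableAdd₂ (∀ i, E i) :=
  ⟨measurable_pi_iff.mpr fun i => (measurable_fst.eval (a := i)).add (measurable_snd.eval (a := i))⟩

private theorem mcs_prod (E F : Type) [AddCommGroup E] [Module ℝ E] [MeasurableSpace E] [MeasurableConstSMul ℝ E]
    [AddCommGroup F] [Module ℝ F] [MeasurableSpace F] [MeasurableConstSMul ℝ F] : MeasurableConstSMul ℝ (E × F) :=
  ⟨fun c => Measurable.prodMk (measurable_fst.const_smul c) (measurable_snd.const_smul c)⟩

private theorem mcs_pi {ι : Type} (E : ι → Type) [∀ i, AddCommGroup (E i)] [∀ i, Module ℝ (E i)]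
    [∀ i, MeasurableSpace (E i)] [∀ i, MeasurableConstSMul ℝ (E i)] : MeasurableConstSMul ℝ (∀ i, E i) :=
  ⟨fun c => measurable_pi_iff.mpr fun i => (measurable_pi_apply i).const_smul c⟩

theorem bddF_pi {p : ℝ} (hp : 0 < p) {k : ℕ} {E : Fin k → Type} [∀ i, AddCommGroup (E i)]
    [∀ i, Module ℝ (E i)] [∀ i, MeasureSpace (E i)] [∀ i, MeasurableAdd₂ (E i)]
    [∀ i, MeasurableConstSMul ℝ (E i)] [∀ i, SigmaFinite (volume : Measure (E i))]
    {C : Fin k → ℝ≥0∞} {μ : ∀ i, Measure (E i)} [∀ i, SigmaFinite (μ i)]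
    (h : ∀ i, BddF p (C i) (μ i)) : BddF p (∏ i, C i) (Measure.pi μ) := by
  induction k with
  | zero =>
    intro S hS f hf
    have h1 : (∏ i, C i) = 1 := by simp
    rw [h1, ENNReal.one_rpow, one_mul]
    apply lintegral_mono
    intro x
    apply ENNReal.rpow_le_rpow _ hp.le
    unfold mx
    refine iSup₂_le fun t ht => ?_
    have h2 : ∀ y : (∀ i, E i), f (x + t • y) = f x := fun y => by
      congr 1
      exact Subsingleton.elim _ _
    simp_rw [h2]
    rw [lintegral_const, Measure.pi_of_empty μ]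
    simp
  | succ k ih =>
    have h1 : BddF p (∏ j, C (Fin.succAbove 0 j)) (Measure.pi (fun j => μ (Fin.succAbove 0 j))) :=
      ih (fun j => h _)
    have := mad_pi (fun j => E (Fin.succAbove 0 j))
    have := mcs_pi (fun j => E (Fin.succAbove 0 j))
    have := mad_prod (E 0) (∀ j, E (Fin.succAbove 0 j))
    have := mcs_prod (E 0) (∀ j, E (Fin.succAbove 0 j))
    have := mad_pi E
    have := mcs_pi E
    have h2 := bddF_prod hp (h 0) h1
    have h3 := bddF_congr (MeasurableEquiv.piFinSuccAbove E 0).symm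
      (volume_preserving_piFinSuccAbove E 0).symm (fun x y => by
        apply (MeasurableEquiv.piFinSuccAbove E 0).injective
        rw [MeasurableEquiv.apply_symm_apply]
        ext
        · change x.1 + y.1 = _
          rfl
        · rfl) (fun t x => by
        apply (MeasurableEquiv.piFinSuccAbove E 0).injective
        rw [MeasurableEquiv.apply_symm_apply]
        rfl) h2
    rw [(measurePreserving_piFinSuccAbove μ 0).symm.map_eq] at h3
    rw [Fin.prod_univ_succAbove _ 0]
    exact h3

theorem unif_pi {k : ℕ} {d : Fin k → ℕ} {A : ∀ i, Set (Fin (d i) → ℝ)}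
    (h0 : ∀ i, volume (A i) ≠ 0) (h1 : ∀ i, volume (A i) ≠ ∞) :
    unif (Set.univ.pi A) = Measure.pi (fun i => unif (A i)) := by
  have hf : ∀ i, IsFiniteMeasure (unif (A i)) := by
    intro i
    refine ⟨?_⟩
    unfold unif
    rw [Measure.smul_apply, Measure.restrict_apply_univ, smul_eq_mul]
    exact ENNReal.mul_lt_top (ENNReal.inv_lt_top.mpr (pos_iff_ne_zero.mpr (h0 i))) (lt_top_iff_ne_top.mpr (h1 i))
  refine (Measure.pi_eq fun s hs => ?_).symm
  unfold unif
  simp only [Measure.smul_apply, smul_eq_mul]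
  rw [Measure.restrict_apply (MeasurableSet.univ_pi hs), ← Set.pi_inter_distrib, volume_pi_pi, volume_pi_pi,
    inv_prod' _ _ h0 h1, ← Finset.prod_mul_distrib]
  refine Finset.prod_congr rfl fun i _ => ?_
  rw [Measure.restrict_apply (hs i)]

end Pool.Agent.MX
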