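import Pool.Agent.MX.Conv1
import Pool.Agent.MX.Conv2
import Pool.Agent.MX.PiM
import Pool.Agent.MX.Cover
import Pool.Agent.MX.Cells

/-!
# MX-FinB: the maximal operator of a sum of bodies
-/

set_option autoImplicit false

open MeasureTheory Set
open scoped Pointwise ENNReal NNReal

namespace Pool.Agent.MX

theorem bsum_bdd {k : ℕ} (hk : 0 < k) {d : Fin k → ℕ} (hd : ∀ i, 0 < d i)
    {K : ∀ i, Set (Fin (d i) → ℝ)} (hK : ∀ i, Body (K i)) {D : Set (Fin k → ℝ)}
    (hDd : ∀ r ∈ D, ∀ r' : Fin k → ℝ, (∀ i, 0 ≤ r' i ∧ r' i ≤ r i) → r' ∈ D)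
    (hDb : ∃ M : ℝ, ∀ r ∈ D, ∀ i, r i ≤ M) (hDp : ∃ r ∈ D, ∀ i, 0 < r i)
    {p : ℝ} (hp : 1 < p) (C : Fin k → ℝ≥0∞) (h : ∀ i, Bdd p (C i) (K i)) :
    Bdd p (4 ^ k * ∏ i, C i) (bsum K D) := by
  have hp0 : 0 < p := by linarith
  obtain ⟨J, hcov, hsum⟩ := bsum_cover hk hd hK hDd hDb
  -- the volume of the sum is positive and finite
  have hboxm : ∀ r : Fin k → ℝ, (∀ i, 0 < r i) →
      IsCompact (Set.univ.pi (fun i => r i • K i)) := fun r _ =>
    isCompact_univ_pi fun i => (hK i).compact.smul (r i)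
  obtain ⟨M, hM⟩ := hDb
  have hsub1 : bsum K D ⊆ Set.univ.pi (fun i => (max M 1) • K i) := by
    intro x hx i _
    have h1 : gauge (K i) (x i) ≤ M := hM _ hx i
    exact ((hK i).gauge_le_iff (lt_of_lt_of_le one_pos (le_max_right M 1)) (x i)).1
      (h1.trans (le_max_left M 1))
  have hB1 : volume (bsum K D) ≠ ∞ :=
    ((measure_mono hsub1).trans_lt (hboxm (fun _ => max M 1)
      fun _ => lt_of_lt_of_le one_pos (le_max_right M 1)).measure_lt_top).ne
  obtain ⟨r, hrD, hr⟩ := hDp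
  have hsub2 : Set.univ.pi (fun i => r i • K i) ⊆ bsum K D := by
    intro x hx
    refine hDd r hrD _ fun i => ⟨gauge_nonneg _, ?_⟩
    exact ((hK i).gauge_le_iff (hr i) (x i)).2 (hx i (mem_univ i))
  have hvol : ∀ (i : Fin k) (ρ : ℝ), 0 < ρ → volume (ρ • K i) ≠ 0 := by
    intro i ρ hρ
    rw [Measure.addHaar_smul]
    exact mul_ne_zero (by simpa using (pow_pos hρ _).ne') (hK i).volume_pos
  have hvol' : ∀ (i : Fin k) (ρ : ℝ), volume (ρ • K i) ≠ ∞ := by
    intro i ρ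
    rw [Measure.addHaar_smul]
    exact ENNReal.mul_ne_top ENNReal.ofReal_ne_top (hK i).volume_lt_top
  have hB0 : volume (bsum K D) ≠ 0 := by
    refine (lt_of_lt_of_le ?_ (measure_mono hsub2)).ne'
    rw [volume_pi_pi]
    exact pos_iff_ne_zero.2 (Finset.prod_ne_zero_iff.2 fun i _ => hvol i _ (hr i))
  -- each box is fine
  have hunif : ∀ (i : Fin k) (ρ : ℝ), 0 < ρ → IsFiniteMeasure (unif (ρ • K i)) := by
    intro i ρ hρ
    constructor
    simp only [unif, Measure.smul_apply, Measure.restrict_apply MeasurableSet.univ, univ_inter,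
      smul_eq_mul]
    rw [ENNReal.inv_mul_cancel (hvol i ρ hρ) (hvol' i ρ)]
    exact ENNReal.one_lt_top
  have hbox : ∀ j : J, BddF p (∏ i, C i)
      (unif (Set.univ.pi (fun i => rad (d i) (j.1 i + 1) • K i))) := by
    intro j
    rw [unif_pi (fun i => hvol i _ (rad_pos _ _)) (fun i => hvol' i _)]
    haveI := fun i => hunif i (rad (d i) (j.1 i + 1)) (rad_pos _ _)
    exact bddF_pi hp0 fun i => bddF_unif_smul (rad_pos _ _)
      (bddF_of_bdd hp0 (hK i).volume_lt_top (h i))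
  have hfin := bddF_cover (D := (4 : ℝ≥0) ^ k) hp.le hB0 hB1 (ι := J)
    (fun j => Set.univ.pi (fun i => rad (d i) (j.1 i + 1) • K i))
    (fun j => (hboxm _ fun i => rad_pos _ _).measurableSet) hcov
    (by simpa using hsum) hbox
  have h4 : (((4 : ℝ≥0) ^ k : ℝ≥0) : ℝ≥0∞) = 4 ^ k := by push_cast; rfl
  rw [h4] at hfin
  refine bdd_of_bddF hp0 hB0 hB1 ?_ hfin
  intro y hy s hs0 hs1
  refine hDd _ hy _ fun i => ⟨gauge_nonneg _, ?_⟩
  have : gauge (K i) ((s • y) i) = s * gauge (K i) (y i) := by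
    rw [Pi.smul_apply, gauge_smul_of_nonneg hs0]; rfl
  rw [this]
  exact mul_le_of_le_one_left (gauge_nonneg _) hs1

end Pool.Agent.MX
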