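import Pool.Agent.MX.Defs

/-!
# MX-Prod: maximal functions of product measures

`bddF_prod`. Let `S` be a finite set of `t > 0` and `f : E × F → ℝ≥0∞` measurable. Put
`g (x, z) := mx ν S (fun w => f (x, w)) z = ⨆ s ∈ S, ∫⁻ w, f (x, z + s • w) ∂ν`, measurable in `(x, z)`
(`Measurable.lintegral_prod_right'` after the finite supremum). Then
`mx (μ.prod ν) S f (x, z) = ⨆ t ∈ S, ∫⁻ y, ∫⁻ w, f (x + t • y, z + t • w) ∂ν ∂μ
≤ ⨆ t ∈ S, ∫⁻ y, g (x + t • y, z) ∂μ = mx μ S (fun x => g (x, z)) x`. Hence (`lintegral_prod`,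
`lintegral_prod_symm`)
`∫⁻ mx (μ.prod ν) S f ^ p ≤ ∫⁻ z, ∫⁻ x, mx μ S (g (·, z)) x ^ p ≤ C ^ p * ∫⁻ z, ∫⁻ x, g (x, z) ^ p
= C ^ p * ∫⁻ x, ∫⁻ z, mx ν S (f (x, ·)) z ^ p ≤ C ^ p * C' ^ p * ∫⁻ x, ∫⁻ z, f (x, z) ^ p`.

`bddF_congr`: transport along a measure preserving equivalence compatible with `+` and `•`
(`MeasurePreserving.lintegral_comp_emb`, `lintegral_map_equiv`):
`mx (μ.map e) S f (e x) = mx μ S (f ∘ e) x`.
-/

set_option autoImplicit false

open MeasureTheory Set
open scoped Pointwise ENNReal NNReal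

namespace Pool.Agent.MX

variable {E : Type} [AddCommGroup E] [Module ℝ E] [MeasureSpace E] [MeasurableAdd₂ E]
  [MeasurableConstSMul ℝ E] [SFinite (volume : Measure E)]
  {F : Type} [AddCommGroup F] [Module ℝ F] [MeasureSpace F] [MeasurableAdd₂ F]
  [MeasurableConstSMul ℝ F] [SFinite (volume : Measure F)]

omit [SFinite (volume : Measure E)] [MeasurableAdd₂ E] [MeasurableConstSMul ℝ E] [Module ℝ E]
  [AddCommGroup E] [SFinite (volume : Measure F)] in
private theorem meas_snd {ν : Measure F} [SFinite ν] (S : Finset ℝ) {f : E × F → ℝ≥0∞}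
    (hf : Measurable f) : Measurable fun q : E × F => mx ν S (fun w => f (q.1, w)) q.2 := by
  unfold mx
  refine Measurable.biSup (S : Set ℝ) S.countable_toSet fun t _ => ?_
  have h1 : Measurable fun r : (E × F) × F => f (r.1.1, r.1.2 + t • r.2) :=
    hf.comp (measurable_fst.fst.prodMk (measurable_fst.snd.add (measurable_snd.const_smul t)))
  exact h1.lintegral_prod_right'

omit [SFinite (volume : Measure E)] [MeasurableAdd₂ F] [MeasurableConstSMul ℝ F] [Module ℝ F]
  [AddCommGroup F] [SFinite (volume : Measure F)] in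
private theorem meas_fst {μ : Measure E} [SFinite μ] (S : Finset ℝ) {g : E × F → ℝ≥0∞}
    (hg : Measurable g) : Measurable fun q : E × F => mx μ S (fun x => g (x, q.2)) q.1 := by
  unfold mx
  refine Measurable.biSup (S : Set ℝ) S.countable_toSet fun t _ => ?_
  have h1 : Measurable fun r : (E × F) × E => g (r.1.1 + t • r.2, r.1.2) :=
    hg.comp ((measurable_fst.fst.add (measurable_snd.const_smul t)).prodMk measurable_fst.snd)
  exact h1.lintegral_prod_right'

theorem bddF_prod {p : ℝ} (hp : 0 < p) {C C' : ℝ≥0∞} {μ : Measure E} {ν : Measure F}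
    [SFinite μ] [SFinite ν] (hμ : BddF p C μ) (hν : BddF p C' ν) :
    BddF p (C * C') (μ.prod ν) := by
  intro S hS f hf
  set g : E × F → ℝ≥0∞ := fun q => mx ν S (fun w => f (q.1, w)) q.2 with hgdef
  have hg : Measurable g := meas_snd S hf
  have hG : Measurable fun q : E × F => mx μ S (fun x => g (x, q.2)) q.1 := meas_fst S hg
  have hle : ∀ q : E × F, mx (μ.prod ν) S f q ≤ mx μ S (fun x => g (x, q.2)) q.1 := by
    rintro ⟨x, z⟩
    unfold mx
    refine iSup₂_mono fun t ht => ?_
    have h1 : Measurable fun r : E × F => f ((x, z) + t • r) := by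
      refine hf.comp ?_
      exact ((measurable_const.add (measurable_fst.const_smul t)).prodMk
        (measurable_const.add (measurable_snd.const_smul t)))
    rw [lintegral_prod _ h1.aemeasurable]
    refine lintegral_mono fun y => ?_
    change ∫⁻ w, f (x + t • y, z + t • w) ∂ν ≤ mx ν S (fun w => f (x + t • y, w)) z
    unfold mx
    exact le_iSup₂ (f := fun i (_ : i ∈ S) =>
      ∫⁻ w, (fun w => f (x + t • y, w)) (z + i • w) ∂ν) t ht
  have hvol : (volume : Measure (E × F)) = (volume : Measure E).prod volume := rfl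
  calc ∫⁻ q, mx (μ.prod ν) S f q ^ p
      ≤ ∫⁻ q : E × F, mx μ S (fun x => g (x, q.2)) q.1 ^ p :=
        lintegral_mono fun q => ENNReal.rpow_le_rpow (hle q) hp.le
    _ = ∫⁻ z : F, ∫⁻ x : E, mx μ S (fun x => g (x, z)) x ^ p := by
        rw [hvol, lintegral_prod_symm _ (hG.pow_const p).aemeasurable]
    _ ≤ ∫⁻ z : F, C ^ p * ∫⁻ x : E, g (x, z) ^ p :=
        lintegral_mono fun z => hμ S hS _ (hg.comp (measurable_id.prodMk measurable_const))
    _ = C ^ p * ∫⁻ z : F, ∫⁻ x : E, g (x, z) ^ p := by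
        rw [lintegral_const_mul]
        exact (hg.pow_const p).lintegral_prod_left'
    _ = C ^ p * ∫⁻ x : E, ∫⁻ z : F, g (x, z) ^ p := by
        rw [← lintegral_prod_symm _ (hg.pow_const p).aemeasurable,
          lintegral_prod _ (hg.pow_const p).aemeasurable]
    _ ≤ C ^ p * ∫⁻ x : E, C' ^ p * ∫⁻ z : F, f (x, z) ^ p := by
        gcongr with x
        exact hν S hS _ (hf.comp (measurable_const.prodMk measurable_id))
    _ = (C * C') ^ p * ∫⁻ q : E × F, f q ^ p := by
        rw [lintegral_const_mul _ (hf.pow_const p).lintegral_prod_right', hvol,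
          lintegral_prod _ (hf.pow_const p).aemeasurable, ENNReal.mul_rpow_of_nonneg _ _ hp.le,
          mul_assoc]

theorem bddF_congr {p : ℝ} {C : ℝ≥0∞} {μ : Measure E} (e : E ≃ᵐ F)
    (he : MeasurePreserving e volume volume) (hadd : ∀ x y, e (x + y) = e x + e y)
    (hsmul : ∀ (t : ℝ) x, e (t • x) = t • e x) (h : BddF p C μ) : BddF p C (μ.map e) := by
  intro S hS f hf
  have h1 : ∀ x, mx (μ.map e) S f (e x) = mx μ S (f ∘ e) x := by
    intro x
    unfold mx
    refine iSup_congr fun t => iSup_congr fun _ => ?_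
    rw [lintegral_map_equiv]
    refine lintegral_congr fun y => ?_
    rw [Function.comp_apply, hadd, hsmul]
  rw [← he.lintegral_comp_emb e.measurableEmbedding, ← he.lintegral_comp_emb e.measurableEmbedding]
  simp only [h1]
  exact h S hS (f ∘ e) (hf.comp e.measurable)

end Pool.Agent.MX
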